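import Pool.Agent.H942R3.KK.Stmts

/-! KK project: rooted embeddings of a connected graph (helper176). -/

set_option autoImplicit false

namespace Pool.Agent.H942R3.KK

open Finset

theorem taskRoot : TaskRoot := by
  classical
  intro V _ G hG k H D hD x u
  -- the codes of the neighbours
  have hphi : ∀ w : Fin k, ∃ φ : Fin k → ℕ, (∀ z, H.Adj w z → φ z < D) ∧
      (∀ z z', H.Adj w z → H.Adj w z' → φ z = φ z' → z = z') := by
    intro w
    have hc : Nat.card (H.neighborSet w) ≤ D := hD w
    let e : H.neighborSet w → Fin D := fun z => Fin.castLE hc (Finite.equivFin _ z)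
    have he : Function.Injective e := by
      intro a b hab
      exact (Finite.equivFin _).injective (Fin.castLE_injective hc hab)
    refine ⟨fun z => if h : H.Adj w z then (e ⟨z, h⟩).1 else 0, ?_, ?_⟩
    · intro z hz
      simp only [dif_pos hz]
      exact (e ⟨z, hz⟩).2
    · intro z z' hz hz' h
      simp only [dif_pos hz, dif_pos hz'] at h
      have := he (Fin.ext h)
      exact congrArg Subtype.val this
  choose φ hφ1 hφ2 using hphi
  -- the parents
  have hpar : ∀ y : V, y ≠ x → ∃ z, G.Adj z y ∧ G.dist z x < G.dist y x := by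
    intro y hy
    obtain ⟨p, hp⟩ := hG.exists_walk_length_eq_dist y x
    cases p with
    | nil => exact absurd rfl hy
    | cons h q =>
      refine ⟨_, h.symm, ?_⟩
      have h1 := SimpleGraph.dist_le q
      rw [SimpleGraph.Walk.length_cons] at hp
      omega
  choose! par hpar1 hpar2 using hpar
  let S : Set (V → Fin k) := {g | g ∈ Emb G H ∧ g x = u}
  let code : S → ({y : V // y ≠ x} → Fin D) := fun g y =>
    ⟨φ (g.1 (par y.1)) (g.1 y.1), hφ1 _ _ (g.2.1.2 _ _ (hpar1 y.1 y.2))⟩
  have hcode : Function.Injective code := by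
    intro g g' h
    have key : ∀ (m : ℕ) (y : V), G.dist y x = m → g.1 y = g'.1 y := by
      intro m
      induction m using Nat.strong_induction_on with
      | _ m ih =>
        intro y hy
        by_cases hyx : y = x
        · rw [hyx, g.2.2, g'.2.2]
        · have h1 : g.1 (par y) = g'.1 (par y) := ih _ (hy ▸ hpar2 y hyx) _ rfl
          have h2 := congrArg Fin.val (congrFun h ⟨y, hyx⟩)
          have h3 : φ (g.1 (par y)) (g.1 y) = φ (g'.1 (par y)) (g'.1 y) := h2
          have h4 : H.Adj (g.1 (par y)) (g.1 y) := g.2.1.2 _ _ (hpar1 y hyx)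
          have h5 : H.Adj (g'.1 (par y)) (g'.1 y) := g'.2.1.2 _ _ (hpar1 y hyx)
          rw [← h1] at h3 h5
          exact hφ2 _ _ _ h4 h5 h3
    apply Subtype.ext
    funext y
    exact key _ y rfl
  have h1 : S.ncard ≤ Nat.card ({y : V // y ≠ x} → Fin D) := by
    rw [← Nat.card_coe_set_eq]
    exact Nat.card_le_card_of_injective code hcode
  refine h1.trans (le_of_eq ?_)
  rw [Nat.card_fun, Nat.card_eq_fintype_card, Fintype.card_fin, Nat.card_eq_fintype_card,
    Fintype.card_subtype_compl, Fintype.card_subtype_eq]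

end Pool.Agent.H942R3.KK
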