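import Pool.Agent.H942R3.KK.Stmts

/-! Task Comp of the KK project: from connected graphs to all finite graphs. -/

set_option autoImplicit false

namespace Pool.Agent.H942R3.KK

namespace CompX

open Finset Classical

variable {V : Type} [Fintype V] (G : SimpleGraph V)

noncomputable instance instC : Fintype G.ConnectedComponent := Fintype.ofFinite _

lemma sum_comp {M : Type} [AddCommMonoid M] (f : V → M) :
    ∑ v, f v = ∑ c : G.ConnectedComponent, ∑ v : c.supp, f v.1 := by
  rw [← Equiv.sum_comp (Equiv.sigmaFiberEquiv G.connectedComponentMk) f, Fintype.sum_sigma]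
  apply Finset.sum_congr rfl
  intro c _
  refine Finset.sum_bij (fun x _ => ⟨x.1, x.2⟩) (fun x _ => Finset.mem_univ _) ?_ ?_ ?_
  · intro x _ y _ hxy
    exact Subtype.ext (congrArg Subtype.val hxy)
  · intro y _
    exact ⟨⟨y.1, y.2⟩, Finset.mem_univ _, rfl⟩
  · intro x _
    rfl

lemma card_comp : Fintype.card V = ∑ c : G.ConnectedComponent, Fintype.card c.supp := by
  have h := sum_comp G (fun _ => (1 : ℕ))
  simpa using h

lemma ncard_eq {W : Type} [Fintype W] (K : SimpleGraph W) :
    2 * K.edgeSet.ncard = ∑ v, (K.neighborSet v).ncard := by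
  have h1 : ∀ v, (K.neighborSet v).ncard = K.degree v := by
    intro v
    rw [← SimpleGraph.card_neighborSet_eq_degree, ← Nat.card_coe_set_eq, Nat.card_eq_fintype_card]
  simp only [h1]
  rw [K.sum_degrees_eq_twice_card_edges]
  congr 1
  rw [← SimpleGraph.coe_edgeFinset, Set.ncard_coe_finset]

lemma deg_comp (c : G.ConnectedComponent) (v : c.supp) :
    ((G.induce c.supp).neighborSet v).ncard = (G.neighborSet v.1).ncard := by
  have h : G.neighborSet v.1 ⊆ c.supp := by
    intro w hw
    have hv := v.2
    rw [SimpleGraph.ConnectedComponent.mem_supp_iff] at hv ⊢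
    rw [← hv]
    exact (SimpleGraph.ConnectedComponent.sound (SimpleGraph.Adj.reachable hw)).symm
  have h2 : (G.neighborSet v.1) = Subtype.val '' ((G.induce c.supp).neighborSet v) := by
    ext w
    constructor
    · intro hw
      exact ⟨⟨w, h hw⟩, hw, rfl⟩
    · rintro ⟨x, hx, rfl⟩
      exact hx
  rw [h2, Set.ncard_image_of_injective _ Subtype.val_injective]

lemma edges_comp : G.edgeSet.ncard
    = ∑ c : G.ConnectedComponent, (G.induce c.supp).edgeSet.ncard := by
  have h1 : 2 * G.edgeSet.ncard
      = 2 * ∑ c : G.ConnectedComponent, (G.induce c.supp).edgeSet.ncard := by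
    rw [ncard_eq, sum_comp G, Finset.mul_sum]
    apply Finset.sum_congr rfl
    intro c _
    rw [ncard_eq]
    apply Finset.sum_congr rfl
    intro v _
    exact (deg_comp G c v).symm
  omega

lemma emb_comp {k : ℕ} (H : SimpleGraph (Fin k)) :
    (Emb G H).ncard ≤ ∏ c : G.ConnectedComponent, (Emb (G.induce c.supp) H).ncard := by
  have h1 : ∏ c : G.ConnectedComponent, (Emb (G.induce c.supp) H).ncard
      = Nat.card ((c : G.ConnectedComponent) → Emb (G.induce c.supp) H) := by
    rw [Nat.card_pi]
    rfl
  rw [h1]
  have h2 : (Emb G H).ncard = Nat.card (Emb G H) := rfl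
  rw [h2]
  let F : Emb G H → ((c : G.ConnectedComponent) → Emb (G.induce c.supp) H) := fun g c =>
    ⟨fun v => g.1 v.1, by
      constructor
      · intro x y hxy
        exact Subtype.ext (g.2.1 hxy)
      · intro x y hxy
        exact g.2.2 _ _ hxy⟩
  apply Nat.card_le_card_of_injective F
  intro g g' hgg
  apply Subtype.ext
  funext v
  have := congrFun hgg (G.connectedComponentMk v)
  have h3 := congrFun (congrArg Subtype.val this) ⟨v, rfl⟩
  exact h3

end CompX

end Pool.Agent.H942R3.KK
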