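import Pool.Agent.H942R3.KK.Stmts

set_option autoImplicit false

namespace Pool.Agent.H942R3.KK

open Finset

lemma sq_le_twelve (e : ℕ) (he : 1 ≤ e) : ((e : ℝ) + 1) ^ 2 * Real.exp 1 ≤ 12 ^ e := by
  have h1 : Real.exp 1 ≤ 2.72 := by
    have := Real.exp_one_lt_d9
    linarith
  have h2 : ∀ e : ℕ, 1 ≤ e → ((e : ℝ) + 1) ^ 2 * 2.72 ≤ 12 ^ e := by
    intro e he
    induction e, he using Nat.le_induction with
    | base => norm_num
    | succ m hm ih =>
      have hm' : (1 : ℝ) ≤ m := by exact_mod_cast hm
      have h3 : (((m + 1 : ℕ) : ℝ) + 1) ^ 2 * 2.72 ≤ 12 * (((m : ℝ) + 1) ^ 2 * 2.72) := by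
        push_cast
        nlinarith
      calc _ ≤ _ := h3
        _ ≤ 12 * 12 ^ m := by gcongr
        _ = 12 ^ (m + 1) := by ring
  calc _ ≤ ((e : ℝ) + 1) ^ 2 * 2.72 := by
        apply mul_le_mul_of_nonneg_left h1 (by positivity)
    _ ≤ _ := h2 e he

theorem taskConn (hR : TaskRoot) (hP : TaskPack) : TaskConn := by
  classical
  intro V _ G hG n k H D p hn hkn hp0 hp1 hD hE
  have : Nonempty V := hG.nonempty
  have hn1 : (1 : ℝ) ≤ n := by exact_mod_cast hn
  set v := Fintype.card V with hv
  set e := G.edgeSet.ncard with he
  have hve : v ≤ e + 1 := by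
    have := hG.card_vert_le_card_edgeSet_add_one
    rw [Nat.card_eq_fintype_card] at this
    rw [he, ← Nat.card_coe_set_eq]
    exact this
  have hfin : (Emb G H).Finite := Set.toFinite _
  rcases Nat.eq_zero_or_pos e with he0 | he1
  · -- one vertex
    have hv1 : v ≤ 1 := by omega
    have hv1' : v = 1 := le_antisymm hv1 Fintype.card_pos
    have h1 : (Emb G H).ncard ≤ k := by
      calc (Emb G H).ncard ≤ (Set.univ : Set (V → Fin k)).ncard :=
            Set.ncard_le_ncard (Set.subset_univ _) (Set.toFinite _)
        _ = k := by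
            rw [Set.ncard_univ, Nat.card_eq_fintype_card, Fintype.card_fun, Fintype.card_fin,
              ← hv, hv1', pow_one]
    rw [he0, hv1', pow_one, pow_zero, mul_one]
    exact_mod_cast h1.trans hkn
  · rcases Nat.eq_zero_or_pos D with hD0 | hD1
    · -- D = 0: no embeddings
      have : Emb G H = ∅ := by
        rw [Set.eq_empty_iff_forall_notMem]
        rintro g ⟨-, hg⟩
        have hne : G.edgeSet.Nonempty := by
          rw [← Set.ncard_pos]
          exact he1
        obtain ⟨a, ha⟩ := hne
        induction a with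
        | h x y =>
          have hxy : G.Adj x y := ha
          have h1 := hg x y hxy
          have h2 := hD (g x)
          rw [hD0, Nat.le_zero, Set.ncard_eq_zero (Set.toFinite _)] at h2
          have h3 : g y ∈ H.neighborSet (g x) := h1
          rw [h2] at h3
          exact h3
      rw [this, Set.ncard_empty]
      push_cast
      positivity
    · -- main case
      set EE : Finset (V → Fin k) := hfin.toFinset with hEE
      have hmemE : ∀ g, g ∈ EE ↔ g ∈ Emb G H := fun g => by rw [hEE, Set.Finite.mem_toFinset]
      let PP : Finset (V → Fin k) → Prop := fun M =>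
        ∀ g ∈ M, ∀ g' ∈ M, g ≠ g' → ∀ x y, g x ≠ g' y
      obtain ⟨M, hM, hmax⟩ := Finset.exists_max_image (EE.powerset.filter PP) Finset.card
        ⟨∅, by simp [PP]⟩
      obtain ⟨hM1, hM2⟩ := Finset.mem_filter.mp hM
      rw [Finset.mem_powerset] at hM1
      set U : Finset (Fin k) := M.biUnion (fun g => univ.image g) with hU
      have hUc : U.card ≤ M.card * v := by
        calc U.card ≤ ∑ g ∈ M, (univ.image g).card := Finset.card_biUnion_le
          _ ≤ ∑ _g ∈ M, v := Finset.sum_le_sum (fun g _ => Finset.card_image_le)
          _ = M.card * v := by simp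
      have hhit : ∀ g ∈ EE, ∃ x : V, g x ∈ U := by
        intro g hg
        by_contra hcon
        push Not at hcon
        have hgM : g ∉ M := by
          intro h
          obtain ⟨x⟩ := ‹Nonempty V›
          exact hcon x (Finset.mem_biUnion.mpr ⟨g, h, Finset.mem_image_of_mem _ (mem_univ _)⟩)
        have hne : ∀ g' ∈ M, ∀ x y, g x ≠ g' y := by
          intro g' hg' x y h
          exact hcon x (Finset.mem_biUnion.mpr ⟨g', hg', by
            rw [h]; exact Finset.mem_image_of_mem _ (mem_univ _)⟩)
        have h1 : insert g M ∈ EE.powerset.filter PP := by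
          rw [Finset.mem_filter, Finset.mem_powerset]
          refine ⟨Finset.insert_subset hg hM1, ?_⟩
          intro a ha b hb hab x y
          rcases Finset.mem_insert.mp ha with rfl | ha'
          · rcases Finset.mem_insert.mp hb with rfl | hb'
            · exact absurd rfl hab
            · exact hne b hb' x y
          · rcases Finset.mem_insert.mp hb with rfl | hb'
            · exact fun h => hne a ha' y x h.symm
            · exact hM2 a ha' b hb' hab x y
        have h2 := hmax _ h1
        rw [Finset.card_insert_of_notMem hgM] at h2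
        omega
      -- count
      have hcount : EE.card ≤ v * (M.card * v) * D ^ (v - 1) := by
        have hsub : EE ⊆ (univ ×ˢ U).biUnion (fun z : V × Fin k =>
            EE.filter (fun g => g z.1 = z.2)) := by
          intro g hg
          obtain ⟨x, hx⟩ := hhit g hg
          exact Finset.mem_biUnion.mpr ⟨(x, g x), by simp [hx], Finset.mem_filter.mpr ⟨hg, rfl⟩⟩
        calc EE.card ≤ _ := Finset.card_le_card hsub
          _ ≤ ∑ z ∈ (univ ×ˢ U : Finset (V × Fin k)), (EE.filter (fun g => g z.1 = z.2)).card :=
              Finset.card_biUnion_le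
          _ ≤ ∑ _z ∈ (univ ×ˢ U : Finset (V × Fin k)), D ^ (v - 1) := by
              apply Finset.sum_le_sum
              intro z _
              have := hR V G hG k H D hD z.1 z.2
              rw [← hv] at this
              refine le_trans (le_of_eq ?_) this
              rw [← Set.ncard_coe_finset]
              congr 1
              ext g
              simp [hmemE]
          _ = (v * U.card) * D ^ (v - 1) := by
              rw [Finset.sum_const, Finset.card_product, Finset.card_univ, smul_eq_mul]
          _ ≤ _ := by gcongr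
      -- packing number
      have hnu : (M.card : ℝ) ≤ Real.exp 1 * ((n : ℝ) ^ v * p ^ e) := by
        rcases Nat.eq_zero_or_pos M.card with h0 | h0
        · rw [h0]
          push_cast
          positivity
        · have h1 := hP V G n k H p hn hp0 hp1 hE M (fun g hg => (hmemE g).mp (hM1 hg)) hM2
          rw [← hv, ← he] at h1
          have h2 : (M.card : ℝ) ^ M.card ≤ Real.exp (M.card) * (M.card.factorial : ℝ) := by
            have := Real.pow_div_factorial_le_exp (M.card : ℝ) (by positivity) M.card
            rwa [div_le_iff₀ (by positivity)] at this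
          have h3 : (M.card : ℝ) ^ M.card ≤ (Real.exp 1 * ((n : ℝ) ^ v * p ^ e)) ^ M.card := by
            calc _ ≤ _ := h2
              _ ≤ Real.exp (M.card) * ((n : ℝ) ^ v * p ^ e) ^ M.card := by gcongr
              _ = _ := by
                  rw [mul_pow (Real.exp 1), ← Real.exp_nat_mul, mul_one]
          exact le_of_pow_le_pow_left₀ (by omega) (by positivity) h3
      have hEc : ((Emb G H).ncard : ℝ) = EE.card := by
        rw [Set.ncard_eq_toFinset_card _ hfin]
      rw [hEc]
      have hcr : (EE.card : ℝ) ≤ v * (M.card * v) * (D : ℝ) ^ (v - 1) := by exact_mod_cast hcount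
      have hDr : (1 : ℝ) ≤ D := by exact_mod_cast hD1
      have hD2 : (D : ℝ) ^ (v - 1) ≤ (D : ℝ) ^ e := pow_le_pow_right₀ hDr (by omega)
      have hv2 : (v : ℝ) ≤ (e : ℝ) + 1 := by exact_mod_cast hve
      calc (EE.card : ℝ) ≤ v * (M.card * v) * (D : ℝ) ^ (v - 1) := hcr
        _ ≤ ((e : ℝ) + 1) * ((Real.exp 1 * ((n : ℝ) ^ v * p ^ e)) * ((e : ℝ) + 1)) *
            (D : ℝ) ^ e := by gcongr
        _ = (((e : ℝ) + 1) ^ 2 * Real.exp 1) * ((n : ℝ) ^ v * p ^ e) * (D : ℝ) ^ e := by ring
        _ ≤ (12 ^ e) * ((n : ℝ) ^ v * p ^ e) * (D : ℝ) ^ e := by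
            gcongr
            exact sq_le_twelve e he1
        _ = (n : ℝ) ^ v * (12 * D * p) ^ e := by
            rw [mul_pow, mul_pow]
            ring

end Pool.Agent.H942R3.KK
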