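import Pool.Agent.H942R3.KK.Stmts3
import Pool.Agent.H942R3.KK.CompX

/-! Task DegB of the KK project: degree count of an induced subgraph. -/

set_option autoImplicit false

namespace Pool.Agent.H942R3.KK

namespace DegBX

open Classical

variable {V : Type} [Fintype V] (H : SimpleGraph V) (S : Set V)

lemma deg_ind (v : S) : ((H.induce S).neighborSet v).ncard = (H.neighborSet v.1 ∩ S).ncard := by
  have h2 : (H.neighborSet v.1 ∩ S) = Subtype.val '' ((H.induce S).neighborSet v) := by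
    ext w
    constructor
    · rintro ⟨hw, hS⟩
      exact ⟨⟨w, hS⟩, hw, rfl⟩
    · rintro ⟨x, hx, rfl⟩
      exact ⟨hx, x.2⟩
  rw [h2, Set.ncard_image_of_injective _ Subtype.val_injective]

/-- the edges leaving `S`, grouped by their end in `S` -/
def eqv : {e : V × V | e.1 ∈ S ∧ e.2 ∉ S ∧ H.Adj e.1 e.2} ≃
    (Σ v : S, (H.neighborSet v.1 \ S : Set V)) where
  toFun e := ⟨⟨e.1.1, e.2.1⟩, ⟨e.1.2, e.2.2.2, e.2.2.1⟩⟩
  invFun s := ⟨(s.1.1, s.2.1), s.1.2, s.2.2.2, s.2.2.1⟩
  left_inv _ := rfl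
  right_inv _ := rfl

lemma bd_sum : bd H S = ∑ v : S, (H.neighborSet v.1 \ S).ncard := by
  have h : bd H S = Nat.card {e : V × V | e.1 ∈ S ∧ e.2 ∉ S ∧ H.Adj e.1 e.2} := rfl
  rw [h, Nat.card_congr (eqv H S), Nat.card_sigma]
  rfl

end DegBX

open Classical in
theorem taskDegB : TaskDegB := by
  intro V _ H d hd S
  rw [CompX.ncard_eq, DegBX.bd_sum, ← Finset.sum_add_distrib]
  have h : ∀ v : S, ((H.induce S).neighborSet v).ncard + (H.neighborSet v.1 \ S).ncard = d := by
    intro v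
    rw [DegBX.deg_ind, Set.ncard_inter_add_ncard_sdiff_eq_ncard _ _ (Set.toFinite _), hd]
  rw [Finset.sum_congr rfl (fun v _ => h v), Finset.sum_const, Finset.card_univ, smul_eq_mul,
    mul_comm]
  have h3 : Fintype.card S = S.ncard := by
    rw [← Nat.card_coe_set_eq, Nat.card_eq_fintype_card]
  rw [h3]

end Pool.Agent.H942R3.KK
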