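import Mathlib
import Pool.Agent.H560R2.Spread2

/-! KK project (helper942): for every graph `H`, `p_c(H) ≤ C · Δ(H) · p_E(H) · log n`. Definitions and tasks. -/

set_option autoImplicit false

namespace Pool.Agent.H942R3.KK

open Finset

/-- injective homomorphisms `G → H` -/
def Emb {V : Type} {k : ℕ} (G : SimpleGraph V) (H : SimpleGraph (Fin k)) : Set (V → Fin k) :=
  {g | Function.Injective g ∧ ∀ x y, G.Adj x y → H.Adj (g x) (g y)}

/-- every subgraph of `H` has expected count at least one in `G(n,p)` -/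
def ExpOK (n k : ℕ) (H : SimpleGraph (Fin k)) (p : ℝ) : Prop :=
  ∀ H' : H.Subgraph,
    1 ≤ (n.descFactorial H'.verts.ncard : ℝ) /
          (Nat.card {σ : Equiv.Perm H'.verts //
              ∀ x y : H'.verts, H'.Adj x y ↔ H'.Adj (σ x) (σ y)} : ℝ)
          * p ^ H'.edgeSet.ncard

def MaxDeg {k : ℕ} (H : SimpleGraph (Fin k)) (D : ℕ) : Prop :=
  ∀ v, (H.neighborSet v).ncard ≤ D

/-- Task Root: rooted embeddings of a connected graph. -/
def TaskRoot : Prop :=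
  ∀ (V : Type) [Fintype V] (G : SimpleGraph V), G.Connected →
    ∀ (k : ℕ) (H : SimpleGraph (Fin k)) (D : ℕ), MaxDeg H D → ∀ (x : V) (u : Fin k),
      {g | g ∈ Emb G H ∧ g x = u}.ncard ≤ D ^ (Fintype.card V - 1)

/-- Task Pack: disjoint copies and the expectation threshold. -/
def TaskPack : Prop :=
  ∀ (V : Type) [Fintype V] [Nonempty V] (G : SimpleGraph V) (n k : ℕ) (H : SimpleGraph (Fin k))
    (p : ℝ), 1 ≤ n → 0 ≤ p → p ≤ 1 → ExpOK n k H p →
    ∀ M : Finset (V → Fin k), (∀ g ∈ M, g ∈ Emb G H) →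
      (∀ g ∈ M, ∀ g' ∈ M, g ≠ g' → ∀ x y, g x ≠ g' y) →
      ((M.card).factorial : ℝ) ≤
        ((n : ℝ) ^ (Fintype.card V) * p ^ (G.edgeSet.ncard)) ^ M.card

/-- Task Conn (helper942): embeddings of a connected graph. -/
def TaskConn : Prop :=
  ∀ (V : Type) [Fintype V] (G : SimpleGraph V), G.Connected →
    ∀ (n k : ℕ) (H : SimpleGraph (Fin k)) (D : ℕ) (p : ℝ), 1 ≤ n → k ≤ n → 0 ≤ p → p ≤ 1 →
      MaxDeg H D → ExpOK n k H p →
      ((Emb G H).ncard : ℝ) ≤ (n : ℝ) ^ (Fintype.card V) * (12 * D * p) ^ (G.edgeSet.ncard)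

/-- Task Comp: the same bound for every finite graph. -/
def TaskComp : Prop :=
  ∀ (V : Type) [Fintype V] (G : SimpleGraph V)
    (n k : ℕ) (H : SimpleGraph (Fin k)) (D : ℕ) (p : ℝ), 1 ≤ n → k ≤ n → 0 ≤ p → p ≤ 1 →
      MaxDeg H D → ExpOK n k H p →
      ((Emb G H).ncard : ℝ) ≤ (n : ℝ) ^ (Fintype.card V) * (12 * D * p) ^ (G.edgeSet.ncard)

/-- support of a set of pairs -/
def Supp {n : ℕ} (Z : Finset (Fin n × Fin n)) : Finset (Fin n) :=
  univ.filter (fun x => ∃ e ∈ Z, e.1 = x ∨ e.2 = x)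

/-- the graph of a set of pairs on its support -/
def GZ {n : ℕ} (Z : Finset (Fin n × Fin n)) : SimpleGraph (Supp Z) where
  Adj x y := x ≠ y ∧ ((x.1, y.1) ∈ Z ∨ (y.1, x.1) ∈ Z)
  symm := ⟨fun _ _ h => ⟨h.1.symm, h.2.symm⟩⟩
  loopless := ⟨fun _ h => h.1 rfl⟩

open Classical in
/-- the edge set (pairs `a < b`) of the copy of `H` given by an embedding -/
noncomputable def EF {n k : ℕ} (H : SimpleGraph (Fin k)) (f : Fin k ↪ Fin n) :
    Finset (Fin n × Fin n) :=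
  univ.filter (fun e => e.1 < e.2 ∧ ∃ a b, H.Adj a b ∧ f a = e.1 ∧ f b = e.2)

/-- Task Ext: counting the copies containing a given set of edges. -/
def TaskExt : Prop :=
  ∀ (n k : ℕ), k ≤ n → ∀ (H : SimpleGraph (Fin k)) (Z : Finset (Fin n × Fin n)),
    ((univ : Finset (Fin k ↪ Fin n)).filter (fun f => Z ⊆ EF H f)).card ≤
      (Emb (GZ Z) H).ncard * (n - (Supp Z).card).descFactorial (k - (Supp Z).card) ∧
    ((∃ f : Fin k ↪ Fin n, Z ⊆ EF H f) →
      (Supp Z).card ≤ k ∧ (Supp Z).card ≤ 2 * Z.card ∧ (GZ Z).edgeSet.ncard = Z.card)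

/-- Task Desc. -/
def TaskDesc : Prop :=
  ∀ n v : ℕ, v ≤ n → (n : ℝ) ^ v ≤ Real.exp v * (n.descFactorial v : ℝ)

/-- Bernoulli(`q`) subsets of `E` -/
noncomputable def Pr {ι : Type} [DecidableEq ι] (E : Finset ι) (q : ℝ) (A : Set (Finset ι)) : ℝ :=
  ∑ S ∈ E.powerset, A.indicator (fun T : Finset ι => q ^ T.card * (1 - q) ^ (E.card - T.card)) S

/-- Task Mono. -/
def TaskMono : Prop :=
  ∀ (ι : Type) [DecidableEq ι] (E : Finset ι) (A : Set (Finset ι)),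
    (∀ S T, S ⊆ T → S ∈ A → T ∈ A) → ∀ q q' : ℝ, 0 ≤ q → q ≤ q' → q' ≤ 1 →
      Pr E q A ≤ Pr E q' A

open Classical in
/-- Task Count: the random set `WJ ω` of `Pool.Agent.H560R2` is a Bernoulli set. -/
def TaskCount : Prop :=
  ∀ (ι : Type) [Fintype ι] [DecidableEq ι] (Q : ℕ) [NeZero Q] (J : ℕ) (E : Finset ι)
    (A : Set (Finset ι)), (∀ S, S ∩ E ∈ A ↔ S ∈ A) →
    (((univ : Finset (Fin J → ι → Fin Q)).filter (fun ω => H560R2.WJ ω ∉ A)).card : ℝ) * 4 ≤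
      ((Q : ℝ) ^ (Fintype.card ι)) ^ J →
    3 / 4 ≤ Pr E (1 - (1 - 1 / (Q : ℝ)) ^ J) A

end Pool.Agent.H942R3.KK
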