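import Mathlib
import Pool.Agent.H942R3.KK.Stmts

/-! Task Desc: comparison of `n ^ v` with the falling factorial. -/

set_option autoImplicit false

namespace Pool.Agent.H942R3.KK

theorem desc_ineq : ∀ (n v : ℕ), v ≤ n → (n : ℝ) ^ v ≤ Real.exp 1 ^ v * (n.descFactorial v : ℝ) := by
  intro n
  induction n with
  | zero =>
    intro v hv
    obtain rfl : v = 0 := by omega
    simp
  | succ n ih =>
    intro v hv
    rcases v with _ | v
    · simp
    · have hv' : v ≤ n := by omega
      have h1 := ih v hv'
      have h2 : ((n : ℝ) + 1) ^ v ≤ Real.exp 1 * (n : ℝ) ^ v := by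
        rcases Nat.eq_zero_or_pos n with rfl | hn
        · obtain rfl : v = 0 := by omega
          simp
        · have hn0 : (0 : ℝ) < n := by exact_mod_cast hn
          have h3 : (n : ℝ) + 1 = n * (1 + 1 / n) := by field_simp
          have h4 : (1 + 1 / (n : ℝ)) ^ v ≤ Real.exp 1 := by
            have h5 : 1 + 1 / (n : ℝ) ≤ Real.exp (1 / n) := by
              have := Real.add_one_le_exp (1 / (n : ℝ))
              linarith
            calc (1 + 1 / (n : ℝ)) ^ v ≤ Real.exp (1 / n) ^ v :=
                  pow_le_pow_left₀ (by positivity) h5 v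
              _ = Real.exp (v * (1 / n)) := by rw [Real.exp_nat_mul]
              _ ≤ Real.exp 1 := by
                  apply Real.exp_le_exp.2
                  rw [mul_one_div, div_le_one hn0]
                  exact_mod_cast hv'
          rw [h3, mul_pow, mul_comm]
          exact mul_le_mul_of_nonneg_right h4 (by positivity)
      rw [Nat.succ_descFactorial_succ]
      push_cast
      calc ((n : ℝ) + 1) ^ (v + 1) = (n + 1) * ((n : ℝ) + 1) ^ v := by ring
        _ ≤ (n + 1) * (Real.exp 1 * (n : ℝ) ^ v) :=
            mul_le_mul_of_nonneg_left h2 (by positivity)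
        _ ≤ (n + 1) * (Real.exp 1 * (Real.exp 1 ^ v * (n.descFactorial v : ℝ))) := by
            apply mul_le_mul_of_nonneg_left _ (by positivity)
            exact mul_le_mul_of_nonneg_left h1 (Real.exp_pos 1).le
        _ = _ := by ring

theorem taskDesc : TaskDesc := by
  intro n v hv
  have h := desc_ineq n v hv
  rwa [← Real.exp_nat_mul, mul_one] at h

end Pool.Agent.H942R3.KK
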