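import Pool.Agent.H942R3.KK.Stmts

/-! Task Ext of the KK project (helper30). -/

set_option autoImplicit false

namespace Pool.Agent.H942R3.KK

open Finset

namespace Ext

variable {n k : ℕ} {H : SimpleGraph (Fin k)} {Z : Finset (Fin n × Fin n)}

lemma mem_EF {f : Fin k ↪ Fin n} {e : Fin n × Fin n} :
    e ∈ EF H f ↔ e.1 < e.2 ∧ ∃ a b, H.Adj a b ∧ f a = e.1 ∧ f b = e.2 := by
  simp only [EF, Finset.mem_filter, Finset.mem_univ, true_and]

lemma mem_Supp {x : Fin n} : x ∈ Supp Z ↔ ∃ e ∈ Z, e.1 = x ∨ e.2 = x := by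
  unfold Supp
  rw [Finset.mem_filter]
  exact ⟨fun h => h.2, fun h => ⟨mem_univ _, h⟩⟩

lemma supp_range {f : Fin k ↪ Fin n} (h : Z ⊆ EF H f) (x : Supp Z) : ∃ a, f a = x.1 := by
  obtain ⟨e, he, h1⟩ := mem_Supp.mp x.2
  obtain ⟨_, a, b, _, ha, hb⟩ := mem_EF.mp (h he)
  rcases h1 with h1 | h1
  · exact ⟨a, by rw [ha, h1]⟩
  · exact ⟨b, by rw [hb, h1]⟩

/-- preimages of the support -/
noncomputable def pre {f : Fin k ↪ Fin n} (h : Z ⊆ EF H f) (x : Supp Z) : Fin k :=
  (supp_range h x).choose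

lemma f_pre {f : Fin k ↪ Fin n} (h : Z ⊆ EF H f) (x : Supp Z) : f (pre h x) = x.1 :=
  (supp_range h x).choose_spec

lemma pre_inj {f : Fin k ↪ Fin n} (h : Z ⊆ EF H f) : Function.Injective (pre h) := by
  intro x y hxy
  apply Subtype.ext
  rw [← f_pre h x, ← f_pre h y, hxy]

lemma pre_adj {f : Fin k ↪ Fin n} (h : Z ⊆ EF H f) (x y : Supp Z) (hz : (x.1, y.1) ∈ Z) :
    H.Adj (pre h x) (pre h y) := by
  obtain ⟨_, a, b, hab, ha, hb⟩ := mem_EF.mp (h hz)
  have h1 : pre h x = a := f.injective (by rw [f_pre, ha])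
  have h2 : pre h y = b := f.injective (by rw [f_pre, hb])
  rw [h1, h2]
  exact hab

lemma pre_mem {f : Fin k ↪ Fin n} (h : Z ⊆ EF H f) : pre h ∈ Emb (GZ Z) H := by
  refine ⟨pre_inj h, ?_⟩
  intro x y hxy
  rcases hxy.2 with h1 | h1
  · exact pre_adj h x y h1
  · exact (pre_adj h y x h1).symm

/-- the restriction of an extension of `g` to the complement -/
def restr (g : Supp Z → Fin k) (f : {f : Fin k ↪ Fin n // ∀ x : Supp Z, f (g x) = x.1}) :
    {a : Fin k // a ∉ Set.range g} ↪ {y : Fin n // y ∉ Supp Z} where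
  toFun a := ⟨f.1 a.1, by
    intro hy
    apply a.2
    refine ⟨⟨f.1 a.1, hy⟩, ?_⟩
    apply f.1.injective
    exact f.2 ⟨f.1 a.1, hy⟩⟩
  inj' := by
    intro a b hab
    apply Subtype.ext
    apply f.1.injective
    exact congrArg Subtype.val hab

lemma restr_inj (g : Supp Z → Fin k) : Function.Injective (restr (n := n) g) := by
  intro f f' h
  apply Subtype.ext
  apply DFunLike.ext
  intro a
  by_cases ha : a ∈ Set.range g
  · obtain ⟨x, rfl⟩ := ha
    rw [f.2 x, f'.2 x]
  · have := DFunLike.congr_fun h ⟨a, ha⟩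
    exact congrArg Subtype.val this

lemma card_ext (g : Supp Z → Fin k) (hg : Function.Injective g) :
    Nat.card {f : Fin k ↪ Fin n // ∀ x : Supp Z, f (g x) = x.1} ≤
      (n - (Supp Z).card).descFactorial (k - (Supp Z).card) := by
  classical
  refine (Nat.card_le_card_of_injective _ (restr_inj g)).trans ?_
  rw [Nat.card_eq_fintype_card, Fintype.card_embedding_eq]
  have h1 : Fintype.card {y : Fin n // y ∉ Supp Z} = n - (Supp Z).card := by
    rw [Fintype.card_subtype_compl, Fintype.card_fin, Fintype.card_coe]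
  have h2 : Fintype.card {a : Fin k // a ∉ Set.range g} = k - (Supp Z).card := by
    rw [Fintype.card_subtype_compl, Fintype.card_fin]
    have : Fintype.card {a : Fin k // a ∈ Set.range g} = Fintype.card (Supp Z) :=
      Set.card_range_of_injective hg
    rw [this, Fintype.card_coe]
  rw [h1, h2]

/-- the edge of `GZ Z` given by a pair -/
def ed (e : Z) : Sym2 (Supp Z) :=
  s(⟨e.1.1, mem_Supp.mpr ⟨e.1, e.2, Or.inl rfl⟩⟩, ⟨e.1.2, mem_Supp.mpr ⟨e.1, e.2, Or.inr rfl⟩⟩)

lemma ed_inj (hZ : ∀ e ∈ Z, e.1 < e.2) : Function.Injective (ed (Z := Z)) := by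
  intro e e' h
  unfold ed at h
  rw [Sym2.eq_iff] at h
  rcases h with ⟨h1, h2⟩ | ⟨h1, h2⟩
  · apply Subtype.ext
    exact Prod.ext (congrArg Subtype.val h1) (congrArg Subtype.val h2)
  · exfalso
    have h1' : e.1.1 = e'.1.2 := congrArg Subtype.val h1
    have h2' : e.1.2 = e'.1.1 := congrArg Subtype.val h2
    have a1 := hZ e.1 e.2
    have a2 := hZ e'.1 e'.2
    rw [h1', h2'] at a1
    exact absurd a1 (not_lt.mpr a2.le)

lemma ed_range (hZ : ∀ e ∈ Z, e.1 < e.2) : Set.range (ed (Z := Z)) = (GZ Z).edgeSet := by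
  ext s
  constructor
  · rintro ⟨e, rfl⟩
    unfold ed
    rw [SimpleGraph.mem_edgeSet]
    refine ⟨?_, Or.inl e.2⟩
    intro h
    exact absurd (congrArg Subtype.val h) (hZ e.1 e.2).ne
  · intro hs
    induction s using Sym2.ind with
    | _ x y =>
      rw [SimpleGraph.mem_edgeSet] at hs
      rcases hs.2 with h | h
      · exact ⟨⟨_, h⟩, rfl⟩
      · exact ⟨⟨_, h⟩, Sym2.eq_swap⟩

lemma edge_card (hZ : ∀ e ∈ Z, e.1 < e.2) : (GZ Z).edgeSet.ncard = Z.card := by
  rw [← ed_range hZ]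
  rw [← Set.image_univ, Set.ncard_image_of_injective _ (ed_inj hZ), Set.ncard_univ,
    Nat.card_eq_fintype_card, Fintype.card_coe]

lemma supp_card : (Supp Z).card ≤ 2 * Z.card := by
  have h : Supp Z ⊆ Z.image Prod.fst ∪ Z.image Prod.snd := by
    intro x hx
    obtain ⟨e, he, h⟩ := mem_Supp.mp hx
    rw [Finset.mem_union, Finset.mem_image, Finset.mem_image]
    rcases h with h | h
    · exact Or.inl ⟨e, he, h⟩
    · exact Or.inr ⟨e, he, h⟩
  calc (Supp Z).card ≤ (Z.image Prod.fst ∪ Z.image Prod.snd).card := Finset.card_le_card h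
    _ ≤ (Z.image Prod.fst).card + (Z.image Prod.snd).card := Finset.card_union_le _ _
    _ ≤ Z.card + Z.card := Nat.add_le_add Finset.card_image_le Finset.card_image_le
    _ = 2 * Z.card := by ring

end Ext

open Ext in
theorem taskExt : TaskExt := by
  classical
  intro n k hkn H Z
  refine ⟨?_, ?_⟩
  · have hfin : (Emb (GZ Z) H).Finite := Set.toFinite _
    have hsub : ((univ : Finset (Fin k ↪ Fin n)).filter (fun f => Z ⊆ EF H f)) ⊆
        hfin.toFinset.biUnion
          (fun g => (univ : Finset (Fin k ↪ Fin n)).filter (fun f => ∀ x : Supp Z, f (g x) = x.1)) := by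
      intro f hf
      have hf' : Z ⊆ EF H f := (Finset.mem_filter.mp hf).2
      rw [Finset.mem_biUnion]
      refine ⟨pre hf', ?_, ?_⟩
      · rw [Set.Finite.mem_toFinset]
        exact pre_mem hf'
      · rw [Finset.mem_filter]
        exact ⟨mem_univ _, f_pre hf'⟩
    have h1 := Finset.card_le_card hsub
    have h2 := Finset.card_biUnion_le_card_mul hfin.toFinset
      (fun g => (univ : Finset (Fin k ↪ Fin n)).filter (fun f => ∀ x : Supp Z, f (g x) = x.1))
      ((n - (Supp Z).card).descFactorial (k - (Supp Z).card)) (by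
        intro g hg
        rw [Set.Finite.mem_toFinset] at hg
        have := card_ext (n := n) g hg.1
        rw [Nat.card_eq_fintype_card, Fintype.card_subtype] at this
        exact this)
    rw [Set.ncard_eq_toFinset_card _ hfin]
    exact h1.trans h2
  · rintro ⟨f, hf⟩
    have hZ : ∀ e ∈ Z, e.1 < e.2 := fun e he => (mem_EF.mp (hf he)).1
    refine ⟨?_, supp_card, edge_card hZ⟩
    have := Fintype.card_le_of_injective _ (pre_inj hf)
    rwa [Fintype.card_coe, Fintype.card_fin] at this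

end Pool.Agent.H942R3.KK
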