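import Pool.Agent.H942R3.KK.Conn

set_option autoImplicit false

namespace Pool.Agent.H942R3.KK

open Finset H560R2

lemma twelve_exp_two : 12 * Real.exp 1 ^ 2 ≤ 89 := by
  have h := Real.exp_one_lt_d9
  have h0 := Real.exp_pos 1
  nlinarith

/-- the ground set of pairs -/
def EE (n : ℕ) : Finset (Fin n × Fin n) := (univ : Finset (Fin n × Fin n)).filter (fun e => e.1 < e.2)

/-- the sets of pairs containing a copy of `H` -/
def Good (n k : ℕ) (H : SimpleGraph (Fin k)) : Set (Finset (Fin n × Fin n)) :=
  {T : Finset (Fin n × Fin n) | ∃ f : Fin k → Fin n, Function.Injective f ∧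
              ∀ a b : Fin k, H.Adj a b → f a < f b → (f a, f b) ∈ T}

lemma good_mono (n k : ℕ) (H : SimpleGraph (Fin k)) (S T : Finset (Fin n × Fin n)) (h : S ⊆ T)
    (hS : S ∈ Good n k H) : T ∈ Good n k H := by
  obtain ⟨f, hf, h1⟩ := hS
  exact ⟨f, hf, fun a b hab hl => h (h1 a b hab hl)⟩

lemma good_inter (n k : ℕ) (H : SimpleGraph (Fin k)) (S : Finset (Fin n × Fin n)) :
    S ∩ EE n ∈ Good n k H ↔ S ∈ Good n k H := by
  constructor
  · exact good_mono n k H _ _ Finset.inter_subset_left
  · rintro ⟨f, hf, h1⟩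
    refine ⟨f, hf, fun a b hab hl => ?_⟩
    rw [Finset.mem_inter]
    exact ⟨h1 a b hab hl, by simp [EE, hl]⟩

lemma good_of_EF (n k : ℕ) (H : SimpleGraph (Fin k)) (f : Fin k ↪ Fin n)
    (T : Finset (Fin n × Fin n)) (h : EF H f ⊆ T) : T ∈ Good n k H := by
  classical
  refine ⟨f, f.injective, fun a b hab hl => h ?_⟩
  simp only [EF, Finset.mem_filter, Finset.mem_univ, true_and]
  exact ⟨hl, a, b, hab, rfl, rfl⟩

lemma EF_card_lt (n k : ℕ) (H : SimpleGraph (Fin k)) (f : Fin k ↪ Fin n) :
    (EF H f).card < 2 ^ (2 * (Nat.log 2 n + 1)) := by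
  have h1 : (EF H f).card ≤ n * n := by
    calc (EF H f).card ≤ (univ : Finset (Fin n × Fin n)).card := Finset.card_le_card (subset_univ _)
      _ = n * n := by simp
  have h2 : n < 2 ^ (Nat.log 2 n + 1) := Nat.lt_pow_succ_log_self (by norm_num) n
  calc (EF H f).card ≤ n * n := h1
    _ < 2 ^ (Nat.log 2 n + 1) * 2 ^ (Nat.log 2 n + 1) := by
        apply Nat.mul_lt_mul'' h2 h2
    _ = _ := by rw [← pow_add]; congr 1; ring

/-- the copies of `H` are spread -/
lemma spread (hX : TaskExt) (hC : TaskComp) (hDe : TaskDesc) (n k : ℕ) (hn : 1 ≤ n) (hkn : k ≤ n)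
    (H : SimpleGraph (Fin k)) (D : ℕ) (p : ℝ) (hp0 : 0 ≤ p) (hp1 : p ≤ 1) (hD : MaxDeg H D)
    (hE : ExpOK n k H p) (r : ℕ) (hr : (r : ℝ) * (89 * D * p) ≤ 1) (Z : Finset (Fin n × Fin n)) :
    ((univ : Finset (Fin k ↪ Fin n)).filter (fun f => Z ⊆ EF H f)).card * r ^ Z.card ≤
      (univ : Finset (Fin k ↪ Fin n)).card := by
  obtain ⟨h1, h2⟩ := hX n k hkn H Z
  by_cases hex : ∃ f : Fin k ↪ Fin n, Z ⊆ EF H f
  · obtain ⟨hv1, hv2, hv3⟩ := h2 hex
    set v := (Supp Z).card with hv
    have h3 := hC (Supp Z) (GZ Z) n k H D p hn hkn hp0 hp1 hD hE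
    rw [hv3, Fintype.card_coe, ← hv] at h3
    have h4 := hDe n v (hv1.trans hkn)
    have h5 : (Emb (GZ Z) H).ncard * r ^ Z.card ≤ n.descFactorial v := by
      have : (((Emb (GZ Z) H).ncard * r ^ Z.card : ℕ) : ℝ) ≤ (n.descFactorial v : ℝ) := by
        push_cast
        calc ((Emb (GZ Z) H).ncard : ℝ) * (r : ℝ) ^ Z.card
            ≤ ((n : ℝ) ^ v * (12 * D * p) ^ Z.card) * (r : ℝ) ^ Z.card := by gcongr
          _ ≤ ((Real.exp v * (n.descFactorial v : ℝ)) * (12 * D * p) ^ Z.card) *
                (r : ℝ) ^ Z.card := by gcongr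
          _ ≤ ((Real.exp 1 ^ (2 * Z.card) * (n.descFactorial v : ℝ)) * (12 * D * p) ^ Z.card) *
                (r : ℝ) ^ Z.card := by
              gcongr
              rw [← Real.exp_nat_mul, mul_one]
              apply Real.exp_le_exp.mpr
              exact_mod_cast hv2
          _ = (n.descFactorial v : ℝ) * ((r : ℝ) * ((12 * Real.exp 1 ^ 2) * D * p)) ^ Z.card := by
              rw [pow_mul, mul_pow (r : ℝ), mul_pow (12 * Real.exp 1 ^ 2 * (D : ℝ)) p,
                mul_pow (12 * Real.exp 1 ^ 2) (D : ℝ), mul_pow 12 (Real.exp 1 ^ 2),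
                mul_pow (12 * (D : ℝ)) p, mul_pow 12 (D : ℝ)]
              ring
          _ ≤ (n.descFactorial v : ℝ) * 1 := by
              gcongr
              apply pow_le_one₀ (by positivity)
              refine le_trans ?_ hr
              have := twelve_exp_two
              gcongr
          _ = _ := mul_one _
      exact_mod_cast this
    calc _ ≤ ((Emb (GZ Z) H).ncard * (n - v).descFactorial (k - v)) * r ^ Z.card :=
          Nat.mul_le_mul_right _ h1
      _ = (n - v).descFactorial (k - v) * ((Emb (GZ Z) H).ncard * r ^ Z.card) := by ring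
      _ ≤ (n - v).descFactorial (k - v) * n.descFactorial v := Nat.mul_le_mul_left _ h5
      _ = n.descFactorial k := Nat.descFactorial_mul_descFactorial hv1
      _ = _ := by
          rw [Finset.card_univ, Fintype.card_embedding_eq, Fintype.card_fin, Fintype.card_fin]
  · have : (univ : Finset (Fin k ↪ Fin n)).filter (fun f => Z ⊆ EF H f) = ∅ := by
      rw [Finset.filter_eq_empty_iff]
      intro f _ hf
      exact hex ⟨f, hf⟩
    rw [this]
    simp

lemma sum_one {ι : Type} [DecidableEq ι] (E : Finset ι) (q : ℝ) :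
    ∑ S ∈ E.powerset, q ^ S.card * (1 - q) ^ (E.card - S.card) = 1 := by
  rw [Finset.sum_pow_mul_eq_add_pow]
  simp

theorem main (hX : TaskExt) (hC : TaskComp) (hDe : TaskDesc) (hM : TaskMono) (hCt : TaskCount) :
    ∃ C : ℝ, 0 < C ∧ ∀ n : ℕ, 2 ≤ n → ∀ k : ℕ, k ≤ n → ∀ H : SimpleGraph (Fin k),
      ∀ D : ℕ, MaxDeg H D → ∀ p : ℝ, 0 ≤ p → ExpOK n k H p →
      ∀ q : ℝ, q = min 1 (C * D * p * Real.log (n : ℝ)) →
      (1 / 2 : ℝ) ≤ Pr (EE n) q (Good n k H) := by
  classical
  refine ⟨70000, by norm_num, ?_⟩
  intro n hn k hkn H D hD p hp0 hE q hq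
  have hn2 : (2 : ℝ) ≤ n := by exact_mod_cast hn
  have hlog2 : 0.6931471803 < Real.log 2 := Real.log_two_gt_d9
  have hlogn : Real.log 2 ≤ Real.log n := Real.log_le_log (by norm_num) hn2
  have hlogpos : 0 < Real.log n := by linarith
  have hq0 : 0 ≤ q := by
    rw [hq]
    exact le_min zero_le_one (by positivity)
  have hq1 : q ≤ 1 := by
    rw [hq]
    exact min_le_left _ _
  -- some embedding
  have hemb : Nonempty (Fin k ↪ Fin n) := ⟨(Fin.castLEEmb hkn)⟩
  obtain ⟨f0⟩ := hemb
  by_cases hbot : ∀ a b, ¬ H.Adj a b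
  · -- no edges
    have hall : ∀ S : Finset (Fin n × Fin n), S ∈ Good n k H := fun S =>
      ⟨f0, f0.injective, fun a b hab => absurd hab (hbot a b)⟩
    have : Pr (EE n) q (Good n k H) = 1 := by
      rw [← sum_one (EE n) q]
      unfold Pr
      apply Finset.sum_congr rfl
      intro S _
      rw [Set.indicator_of_mem (hall S)]
    rw [this]
    norm_num
  · push Not at hbot
    obtain ⟨a0, b0, hab⟩ := hbot
    by_cases hbig : 1 ≤ 70000 * D * p * Real.log (n : ℝ)
    · -- q = 1
      have hq' : q = 1 := by rw [hq]; exact min_eq_left hbig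
      have hEgood : EE n ∈ Good n k H := by
        refine ⟨f0, f0.injective, fun a b _ hl => ?_⟩
        simp only [EE, mem_filter, mem_univ, true_and]
        exact hl
      have h1 : (1 : ℝ) ≤ Pr (EE n) q (Good n k H) := by
        unfold Pr
        have hterm : (Good n k H).indicator
            (fun T : Finset (Fin n × Fin n) => q ^ T.card * (1 - q) ^ ((EE n).card - T.card))
            (EE n) = 1 := by
          rw [Set.indicator_of_mem hEgood, hq']
          simp
        refine le_trans (le_of_eq hterm.symm) ?_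
        apply Finset.single_le_sum (f := fun S => (Good n k H).indicator
            (fun T : Finset (Fin n × Fin n) => q ^ T.card * (1 - q) ^ ((EE n).card - T.card)) S)
        · intro S _
          apply Set.indicator_nonneg
          intro T _
          have : 0 ≤ 1 - q := by linarith
          positivity
        · exact Finset.mem_powerset_self _
      linarith
    · push Not at hbig
      -- D ≥ 1
      have hD1 : 1 ≤ D := by
        have h1 := hD a0
        have h2 : 0 < (H.neighborSet a0).ncard := by
          rw [Set.ncard_pos (Set.toFinite _)]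
          exact ⟨b0, hab⟩
        omega
      have hDr : (1 : ℝ) ≤ D := by exact_mod_cast hD1
      -- p > 0
      have hppos : 0 < p := by
        rcases hp0.lt_or_eq with h | h
        · exact h
        · exfalso
          have h1 := hE ⊤
          have h2 : (⊤ : H.Subgraph).edgeSet.ncard ≠ 0 := by
            have h3 : 0 < (⊤ : H.Subgraph).edgeSet.ncard := by
              rw [Set.ncard_pos (Set.toFinite _)]
              exact ⟨s(a0, b0), by simpa using hab⟩
            omega
          rw [← h, zero_pow h2, mul_zero] at h1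
          linarith
      set x : ℝ := D * p with hx
      have hxpos : 0 < x := by positivity
      have hxs : x * 48510 < 1 := by
        have h1 : 70000 * x * Real.log n < 1 := by
          calc 70000 * x * Real.log n = 70000 * D * p * Real.log (n : ℝ) := by rw [hx]; ring
            _ < 1 := hbig
        have h2 : x * 48510 ≤ 70000 * x * Real.log n := by
          have : (48510 : ℝ) ≤ 70000 * Real.log n := by linarith
          nlinarith
        linarith
      have hp1 : p ≤ 1 := by nlinarith
      set y : ℝ := 1 / (89 * x) with hy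
      have hyx : y * (89 * x) = 1 := by rw [hy]; field_simp
      have hy128 : 128 ≤ y := by
        rw [hy, le_div_iff₀ (by positivity)]
        linarith
      set r : ℕ := ⌊y⌋₊ with hr
      have hry : (r : ℝ) ≤ y := Nat.floor_le (by positivity)
      have hyr : y < r + 1 := Nat.lt_floor_add_one y
      set Q : ℕ := r / 64 with hQ
      have hr127 : 127 ≤ r := by
        have : (127 : ℝ) < r + 0 + 0 ∨ (127 : ℝ) ≤ r := by
          right; linarith
        rcases this with h | h
        · have : (127 : ℝ) < r := by linarith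
          exact_mod_cast this.le
        · exact_mod_cast h
      have hQ1 : 1 ≤ Q := by omega
      have hQy : y / 128 ≤ Q := by
        have h1 : r < 64 * (Q + 1) := by omega
        have h2 : (r : ℝ) + 1 ≤ 64 * ((Q : ℝ) + 1) := by exact_mod_cast h1
        have h3 : y < 64 * ((Q : ℝ) + 1) := by linarith
        linarith
      have : NeZero Q := ⟨by omega⟩
      set J : ℕ := 2 * (Nat.log 2 n + 1) with hJ
      have hspread := spread hX hC hDe n k (by omega) hkn H D p hp0 hp1 hD hE r (by
        calc (r : ℝ) * (89 * D * p) = r * (89 * x) := by rw [hx]; ring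
          _ ≤ y * (89 * x) := by gcongr
          _ = 1 := hyx)
      have hph := phase (Q := Q) J r (by omega) (univ : Finset (Fin k ↪ Fin n)) (fun f => EF H f)
        (univ : Finset (Fin k ↪ Fin n)).card (fun f _ => EF_card_lt n k H f) hspread
      have hIpos : (0 : ℚ) < ((univ : Finset (Fin k ↪ Fin n)).card : ℚ) := by
        have : 0 < (univ : Finset (Fin k ↪ Fin n)).card := Finset.card_pos.mpr ⟨f0, mem_univ _⟩
        exact_mod_cast this
      have hfail : (failJ Q J (univ : Finset (Fin k ↪ Fin n)) (fun f => EF H f)).card * 4 ≤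
          (Q ^ Fintype.card (Fin n × Fin n)) ^ J := by
        have h1 : ((failJ Q J (univ : Finset (Fin k ↪ Fin n)) (fun f => EF H f)).card : ℚ) ≤
            cJ J * ((Q : ℚ) ^ (Fintype.card (Fin n × Fin n))) ^ J := by
          refine le_of_mul_le_mul_right ?_ hIpos
          calc _ ≤ _ := hph
            _ = _ := by ring
        have h2 := h1.trans (mul_le_mul_of_nonneg_right (cJ_le J) (by positivity))
        have h3 : ((failJ Q J (univ : Finset (Fin k ↪ Fin n)) (fun f => EF H f)).card : ℚ) * 4 ≤
            ((Q : ℚ) ^ (Fintype.card (Fin n × Fin n))) ^ J := by linarith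
        exact_mod_cast h3
      have hsub : (univ : Finset (Fin J → Fin n × Fin n → Fin Q)).filter
          (fun ω => WJ ω ∉ Good n k H) ⊆
          failJ Q J (univ : Finset (Fin k ↪ Fin n)) (fun f => EF H f) := by
        intro ω hω
        rw [Finset.mem_filter] at hω
        rw [mem_failJ]
        intro f _ hf
        exact hω.2 (good_of_EF n k H f _ hf)
      have hcnt := hCt (Fin n × Fin n) Q J (EE n) (Good n k H) (good_inter n k H) (by
        have h1 := Finset.card_le_card hsub
        have h2 : ((univ : Finset (Fin J → Fin n × Fin n → Fin Q)).filter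
          (fun ω => WJ ω ∉ Good n k H)).card * 4 ≤ (Q ^ Fintype.card (Fin n × Fin n)) ^ J :=
          le_trans (Nat.mul_le_mul_right 4 h1) hfail
        exact_mod_cast h2)
      -- compare the densities
      have hQr : (1 : ℝ) ≤ Q := by exact_mod_cast hQ1
      have hinv : 1 / (Q : ℝ) ≤ 11392 * x := by
        rw [div_le_iff₀ (by linarith)]
        have h1 : 11392 * x * (y / 128) = 1 := by
          have : 11392 * x * (y / 128) = y * (89 * x) := by ring
          rw [this, hyx]
        calc (1 : ℝ) = 11392 * x * (y / 128) := h1.symm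
          _ ≤ 11392 * x * Q := by gcongr
      have hJle : (J : ℝ) ≤ 6 * Real.log n := by
        have h1 : (Nat.log 2 n : ℝ) * Real.log 2 ≤ Real.log n := by
          have h2 : (2 : ℝ) ^ (Nat.log 2 n) ≤ n := by
            exact_mod_cast Nat.pow_log_le_self 2 (by omega)
          have h3 := Real.log_le_log (by positivity) h2
          rwa [Real.log_pow] at h3
        have h4 : (J : ℝ) = 2 * ((Nat.log 2 n : ℝ) + 1) := by rw [hJ]; push_cast; ring
        rw [h4]
        have h5 : (2 * ((Nat.log 2 n : ℝ) + 1)) * Real.log 2 ≤ 4 * Real.log n := by nlinarith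
        have h6 : 0 ≤ (Nat.log 2 n : ℝ) := by positivity
        nlinarith
      set q0 : ℝ := 1 - (1 - 1 / (Q : ℝ)) ^ J with hq0def
      have hQinv1 : 1 / (Q : ℝ) ≤ 1 := by
        rw [div_le_one (by linarith)]
        exact hQr
      have hQinv0 : 0 ≤ 1 / (Q : ℝ) := by positivity
      have hpow1 : (1 - 1 / (Q : ℝ)) ^ J ≤ 1 := pow_le_one₀ (by linarith) (by linarith)
      have hpow0 : 0 ≤ (1 - 1 / (Q : ℝ)) ^ J := pow_nonneg (by linarith) _
      have hbern : 1 - (J : ℝ) * (1 / Q) ≤ (1 - 1 / (Q : ℝ)) ^ J := by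
        have := one_add_mul_le_pow (a := -(1 / (Q : ℝ))) (by linarith) J
        calc 1 - (J : ℝ) * (1 / Q) = 1 + (J : ℝ) * -(1 / (Q : ℝ)) := by ring
          _ ≤ (1 + -(1 / (Q : ℝ))) ^ J := this
          _ = _ := by ring_nf
      have hq0le : q0 ≤ q := by
        rw [hq, le_min_iff]
        refine ⟨by rw [hq0def]; linarith, ?_⟩
        calc q0 ≤ (J : ℝ) * (1 / Q) := by rw [hq0def]; linarith
          _ ≤ (6 * Real.log n) * (11392 * x) := by gcongr
          _ ≤ 70000 * D * p * Real.log n := by
              rw [show 70000 * (D : ℝ) * p * Real.log n = 70000 * x * Real.log n by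
                rw [hx]; ring]
              nlinarith [mul_pos hxpos hlogpos]
      have hmono := hM (Fin n × Fin n) (EE n) (Good n k H) (good_mono n k H) q0 q
        (by rw [hq0def]; linarith) hq0le hq1
      linarith

end Pool.Agent.H942R3.KK
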