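import Pool.Agent.H942R3.KK.Stmts

/-! KK project (helper942), second round of tasks. -/

set_option autoImplicit false

namespace Pool.Agent.H942R3.KK

open Finset

/-- Task Star: the expectation condition for the star at a vertex. -/
def TaskStar : Prop :=
  ∀ (n k : ℕ) (H : SimpleGraph (Fin k)) (p : ℝ), 1 ≤ n → 0 ≤ p → ExpOK n k H p → ∀ x : Fin k,
    (((H.neighborSet x).ncard).factorial : ℝ) ≤ n * ((n : ℝ) * p) ^ (H.neighborSet x).ncard

/-- Task Forest: embeddings of a connected graph into a forest. -/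
def TaskForest : Prop :=
  ∀ (V : Type) [Fintype V] (G : SimpleGraph V), G.Connected →
    ∀ (n k : ℕ) (H : SimpleGraph (Fin k)) (D : ℕ), 1 ≤ n → k ≤ n → MaxDeg H D → H.IsAcyclic →
      ((Emb G H).ncard : ℝ) ≤ (n : ℝ) ^ (Fintype.card V) * ((D : ℝ) / n) ^ (G.edgeSet.ncard)

end Pool.Agent.H942R3.KK
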