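import Pool.Agent.H942R3.KK.Final
import Pool.Agent.H942R3.KK.CompX
import Pool.Agent.H942R3.KK.Stmts2

set_option autoImplicit false

namespace Pool.Agent.H942R3.KK

open Finset H560R2

open CompX Classical in
/-- from connected graphs to all graphs -/
theorem compGen (n k : ℕ) (H : SimpleGraph (Fin k)) (x : ℝ)
    (hc : ∀ (V : Type) [Fintype V] (G : SimpleGraph V), G.Connected →
      ((Emb G H).ncard : ℝ) ≤ (n : ℝ) ^ (Fintype.card V) * x ^ (G.edgeSet.ncard))
    (V : Type) [Fintype V] (G : SimpleGraph V) :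
    ((Emb G H).ncard : ℝ) ≤ (n : ℝ) ^ (Fintype.card V) * x ^ (G.edgeSet.ncard) := by
  have key : ∀ c : G.ConnectedComponent, ((Emb (G.induce c.supp) H).ncard : ℝ)
      ≤ (n : ℝ) ^ (Fintype.card c.supp) * x ^ ((G.induce c.supp).edgeSet.ncard) :=
    fun c => hc c.supp (G.induce c.supp) c.connected_toSimpleGraph
  calc ((Emb G H).ncard : ℝ)
      ≤ ((∏ c : G.ConnectedComponent, (Emb (G.induce c.supp) H).ncard : ℕ) : ℝ) := by
        exact_mod_cast emb_comp G H
    _ = ∏ c : G.ConnectedComponent, ((Emb (G.induce c.supp) H).ncard : ℝ) := by push_cast; rfl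
    _ ≤ ∏ c : G.ConnectedComponent,
          ((n : ℝ) ^ (Fintype.card c.supp) * x ^ ((G.induce c.supp).edgeSet.ncard)) :=
        Finset.prod_le_prod (fun c _ => Nat.cast_nonneg _) (fun c _ => key c)
    _ = (n : ℝ) ^ (Fintype.card V) * x ^ (G.edgeSet.ncard) := by
        rw [Finset.prod_mul_distrib, Finset.prod_pow_eq_pow_sum, Finset.prod_pow_eq_pow_sum,
          ← card_comp, ← edges_comp]

lemma exp_two_le : Real.exp 1 ^ 2 ≤ 7.5 := by
  have h := Real.exp_one_lt_d9
  have h0 := Real.exp_pos 1
  nlinarith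

/-- the copies of `H` are spread -/
lemma spreadGen (hX : TaskExt) (hDe : TaskDesc) (n k : ℕ) (hkn : k ≤ n)
    (H : SimpleGraph (Fin k)) (x : ℝ) (hx0 : 0 ≤ x)
    (hC : ∀ (V : Type) [Fintype V] (G : SimpleGraph V),
      ((Emb G H).ncard : ℝ) ≤ (n : ℝ) ^ (Fintype.card V) * x ^ (G.edgeSet.ncard))
    (r : ℕ) (hr : (r : ℝ) * (7.5 * x) ≤ 1) (Z : Finset (Fin n × Fin n)) :
    ((univ : Finset (Fin k ↪ Fin n)).filter (fun f => Z ⊆ EF H f)).card * r ^ Z.card ≤
      (univ : Finset (Fin k ↪ Fin n)).card := by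
  obtain ⟨h1, h2⟩ := hX n k hkn H Z
  by_cases hex : ∃ f : Fin k ↪ Fin n, Z ⊆ EF H f
  · obtain ⟨hv1, hv2, hv3⟩ := h2 hex
    set v := (Supp Z).card with hv
    have h3 := hC (Supp Z) (GZ Z)
    rw [hv3, Fintype.card_coe, ← hv] at h3
    have h4 := hDe n v (hv1.trans hkn)
    have h5 : (Emb (GZ Z) H).ncard * r ^ Z.card ≤ n.descFactorial v := by
      have : (((Emb (GZ Z) H).ncard * r ^ Z.card : ℕ) : ℝ) ≤ (n.descFactorial v : ℝ) := by
        push_cast
        calc ((Emb (GZ Z) H).ncard : ℝ) * (r : ℝ) ^ Z.card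
            ≤ ((n : ℝ) ^ v * x ^ Z.card) * (r : ℝ) ^ Z.card := by gcongr
          _ ≤ ((Real.exp v * (n.descFactorial v : ℝ)) * x ^ Z.card) *
                (r : ℝ) ^ Z.card := by gcongr
          _ ≤ ((Real.exp 1 ^ (2 * Z.card) * (n.descFactorial v : ℝ)) * x ^ Z.card) *
                (r : ℝ) ^ Z.card := by
              gcongr
              rw [← Real.exp_nat_mul, mul_one]
              apply Real.exp_le_exp.mpr
              exact_mod_cast hv2
          _ = (n.descFactorial v : ℝ) * ((r : ℝ) * (Real.exp 1 ^ 2 * x)) ^ Z.card := by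
              rw [pow_mul, mul_pow (r : ℝ), mul_pow (Real.exp 1 ^ 2) x]
              ring
          _ ≤ (n.descFactorial v : ℝ) * 1 := by
              gcongr
              apply pow_le_one₀ (by positivity)
              refine le_trans ?_ hr
              have := exp_two_le
              gcongr
          _ = _ := mul_one _
      exact_mod_cast this
    calc _ ≤ ((Emb (GZ Z) H).ncard * (n - v).descFactorial (k - v)) * r ^ Z.card :=
          Nat.mul_le_mul_right _ h1
      _ = (n - v).descFactorial (k - v) * ((Emb (GZ Z) H).ncard * r ^ Z.card) := by ring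
      _ ≤ (n - v).descFactorial (k - v) * n.descFactorial v := Nat.mul_le_mul_left _ h5
      _ = n.descFactorial k := Nat.descFactorial_mul_descFactorial hv1
      _ = _ := by
          rw [Finset.card_univ, Fintype.card_embedding_eq, Fintype.card_fin, Fintype.card_fin]
  · have : (univ : Finset (Fin k ↪ Fin n)).filter (fun f => Z ⊆ EF H f) = ∅ := by
      rw [Finset.filter_eq_empty_iff]
      intro f _ hf
      exact hex ⟨f, hf⟩
    rw [this]
    simp

theorem core (hX : TaskExt) (hDe : TaskDesc) (hM : TaskMono) (hCt : TaskCount)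
    (n : ℕ) (hn : 2 ≤ n) (k : ℕ) (hkn : k ≤ n) (H : SimpleGraph (Fin k)) (x : ℝ) (hxpos : 0 < x)
    (hC : ∀ (V : Type) [Fintype V] (G : SimpleGraph V),
      ((Emb G H).ncard : ℝ) ≤ (n : ℝ) ^ (Fintype.card V) * x ^ (G.edgeSet.ncard))
    (q : ℝ) (hq : min 1 (6000 * x * Real.log (n : ℝ)) ≤ q) (hq1 : q ≤ 1) :
      (1 / 2 : ℝ) ≤ Pr (EE n) q (Good n k H) := by
  classical
  have hn2 : (2 : ℝ) ≤ n := by exact_mod_cast hn
  have hlog2 : 0.6931471803 < Real.log 2 := Real.log_two_gt_d9
  have hlogn : Real.log 2 ≤ Real.log n := Real.log_le_log (by norm_num) hn2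
  have hlogpos : 0 < Real.log n := by linarith
  have hq0 : 0 ≤ q := by
    refine le_trans ?_ hq
    exact le_min zero_le_one (by positivity)
  -- some embedding
  have hemb : Nonempty (Fin k ↪ Fin n) := ⟨(Fin.castLEEmb hkn)⟩
  obtain ⟨f0⟩ := hemb
  by_cases hbig : 1 ≤ 6000 * x * Real.log (n : ℝ)
  · -- q = 1
    have hq' : q = 1 := by
      rw [min_eq_left hbig] at hq
      linarith
    have hEgood : EE n ∈ Good n k H := by
      refine ⟨f0, f0.injective, fun a b _ hl => ?_⟩
      simp only [EE, mem_filter, mem_univ, true_and]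
      exact hl
    have h1 : (1 : ℝ) ≤ Pr (EE n) q (Good n k H) := by
      unfold Pr
      have hterm : (Good n k H).indicator
          (fun T : Finset (Fin n × Fin n) => q ^ T.card * (1 - q) ^ ((EE n).card - T.card))
          (EE n) = 1 := by
        rw [Set.indicator_of_mem hEgood, hq']
        simp
      refine le_trans (le_of_eq hterm.symm) ?_
      apply Finset.single_le_sum (f := fun S => (Good n k H).indicator
          (fun T : Finset (Fin n × Fin n) => q ^ T.card * (1 - q) ^ ((EE n).card - T.card)) S)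
      · intro S _
        apply Set.indicator_nonneg
        intro T _
        have : 0 ≤ 1 - q := by linarith
        positivity
      · exact Finset.mem_powerset_self _
    linarith
  · push Not at hbig
    have hxs : x * 4158 < 1 := by
      have h2 : x * 4158 ≤ 6000 * x * Real.log n := by
        have : (4158 : ℝ) ≤ 6000 * Real.log n := by linarith
        nlinarith
      linarith
    set y : ℝ := 1 / (7.5 * x) with hy
    have hyx : y * (7.5 * x) = 1 := by rw [hy]; field_simp
    have hy128 : 128 ≤ y := by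
      rw [hy, le_div_iff₀ (by positivity)]
      linarith
    set r : ℕ := ⌊y⌋₊ with hr
    have hry : (r : ℝ) ≤ y := Nat.floor_le (by positivity)
    have hyr : y < r + 1 := Nat.lt_floor_add_one y
    set Q : ℕ := r / 64 with hQ
    have hr127 : 127 ≤ r := by
      have h : (127 : ℝ) ≤ r := by linarith
      exact_mod_cast h
    have hQ1 : 1 ≤ Q := by omega
    have hQy : y / 128 ≤ Q := by
      have h1 : r < 64 * (Q + 1) := by omega
      have h2 : (r : ℝ) + 1 ≤ 64 * ((Q : ℝ) + 1) := by exact_mod_cast h1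
      have h3 : y < 64 * ((Q : ℝ) + 1) := by linarith
      linarith
    have : NeZero Q := ⟨by omega⟩
    set J : ℕ := 2 * (Nat.log 2 n + 1) with hJ
    have hspread := spreadGen hX hDe n k hkn H x hxpos.le hC r (by
      calc (r : ℝ) * (7.5 * x) ≤ y * (7.5 * x) := by gcongr
        _ = 1 := hyx)
    have hph := phase (Q := Q) J r (by omega) (univ : Finset (Fin k ↪ Fin n)) (fun f => EF H f)
      (univ : Finset (Fin k ↪ Fin n)).card (fun f _ => EF_card_lt n k H f) hspread
    have hIpos : (0 : ℚ) < ((univ : Finset (Fin k ↪ Fin n)).card : ℚ) := by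
      have : 0 < (univ : Finset (Fin k ↪ Fin n)).card := Finset.card_pos.mpr ⟨f0, mem_univ _⟩
      exact_mod_cast this
    have hfail : (failJ Q J (univ : Finset (Fin k ↪ Fin n)) (fun f => EF H f)).card * 4 ≤
        (Q ^ Fintype.card (Fin n × Fin n)) ^ J := by
      have h1 : ((failJ Q J (univ : Finset (Fin k ↪ Fin n)) (fun f => EF H f)).card : ℚ) ≤
          cJ J * ((Q : ℚ) ^ (Fintype.card (Fin n × Fin n))) ^ J := by
        refine le_of_mul_le_mul_right ?_ hIpos
        calc _ ≤ _ := hph
          _ = _ := by ring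
      have h2 := h1.trans (mul_le_mul_of_nonneg_right (cJ_le J) (by positivity))
      have h3 : ((failJ Q J (univ : Finset (Fin k ↪ Fin n)) (fun f => EF H f)).card : ℚ) * 4 ≤
          ((Q : ℚ) ^ (Fintype.card (Fin n × Fin n))) ^ J := by linarith
      exact_mod_cast h3
    have hsub : (univ : Finset (Fin J → Fin n × Fin n → Fin Q)).filter
        (fun ω => WJ ω ∉ Good n k H) ⊆
        failJ Q J (univ : Finset (Fin k ↪ Fin n)) (fun f => EF H f) := by
      intro ω hω
      rw [Finset.mem_filter] at hω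
      rw [mem_failJ]
      intro f _ hf
      exact hω.2 (good_of_EF n k H f _ hf)
    have hcnt := hCt (Fin n × Fin n) Q J (EE n) (Good n k H) (good_inter n k H) (by
      have h1 := Finset.card_le_card hsub
      have h2 : ((univ : Finset (Fin J → Fin n × Fin n → Fin Q)).filter
        (fun ω => WJ ω ∉ Good n k H)).card * 4 ≤ (Q ^ Fintype.card (Fin n × Fin n)) ^ J :=
        le_trans (Nat.mul_le_mul_right 4 h1) hfail
      exact_mod_cast h2)
    -- compare the densities
    have hQr : (1 : ℝ) ≤ Q := by exact_mod_cast hQ1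
    have hinv : 1 / (Q : ℝ) ≤ 960 * x := by
      rw [div_le_iff₀ (by linarith)]
      have h1 : 960 * x * (y / 128) = 1 := by
        have : 960 * x * (y / 128) = y * (7.5 * x) := by ring
        rw [this, hyx]
      calc (1 : ℝ) = 960 * x * (y / 128) := h1.symm
        _ ≤ 960 * x * Q := by gcongr
    have hJle : (J : ℝ) ≤ 6 * Real.log n := by
      have h1 : (Nat.log 2 n : ℝ) * Real.log 2 ≤ Real.log n := by
        have h2 : (2 : ℝ) ^ (Nat.log 2 n) ≤ n := by
          exact_mod_cast Nat.pow_log_le_self 2 (by omega)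
        have h3 := Real.log_le_log (by positivity) h2
        rwa [Real.log_pow] at h3
      have h4 : (J : ℝ) = 2 * ((Nat.log 2 n : ℝ) + 1) := by rw [hJ]; push_cast; ring
      rw [h4]
      have h5 : (2 * ((Nat.log 2 n : ℝ) + 1)) * Real.log 2 ≤ 4 * Real.log n := by nlinarith
      have h6 : 0 ≤ (Nat.log 2 n : ℝ) := by positivity
      nlinarith
    set q0 : ℝ := 1 - (1 - 1 / (Q : ℝ)) ^ J with hq0def
    have hQinv1 : 1 / (Q : ℝ) ≤ 1 := by
      rw [div_le_one (by linarith)]
      exact hQr
    have hQinv0 : 0 ≤ 1 / (Q : ℝ) := by positivity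
    have hpow1 : (1 - 1 / (Q : ℝ)) ^ J ≤ 1 := pow_le_one₀ (by linarith) (by linarith)
    have hpow0 : 0 ≤ (1 - 1 / (Q : ℝ)) ^ J := pow_nonneg (by linarith) _
    have hbern : 1 - (J : ℝ) * (1 / Q) ≤ (1 - 1 / (Q : ℝ)) ^ J := by
      have := one_add_mul_le_pow (a := -(1 / (Q : ℝ))) (by linarith) J
      calc 1 - (J : ℝ) * (1 / Q) = 1 + (J : ℝ) * -(1 / (Q : ℝ)) := by ring
        _ ≤ (1 + -(1 / (Q : ℝ))) ^ J := this
        _ = _ := by ring_nf
    have hq0le : q0 ≤ q := by
      refine le_trans ?_ hq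
      rw [le_min_iff]
      refine ⟨by rw [hq0def]; linarith, ?_⟩
      calc q0 ≤ (J : ℝ) * (1 / Q) := by rw [hq0def]; linarith
        _ ≤ (6 * Real.log n) * (960 * x) := by gcongr
        _ ≤ 6000 * x * Real.log n := by
            nlinarith [mul_pos hxpos hlogpos]
    have hmono := hM (Fin n × Fin n) (EE n) (Good n k H) (good_mono n k H) q0 q
      (by rw [hq0def]; linarith) hq0le hq1
    linarith

/-- degrees from the star condition -/
lemma deg_bound (n d : ℕ) (hn : 1 ≤ n) (p : ℝ) (hp : 0 ≤ p)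
    (h : (d.factorial : ℝ) ≤ n * ((n : ℝ) * p) ^ d) (hd : 8 * ((n : ℝ) * p) < d) :
    (d : ℝ) < Real.log n := by
  have hn0 : (0 : ℝ) < n := by exact_mod_cast hn
  have hd0 : (0 : ℝ) < d := lt_of_le_of_lt (by positivity) hd
  have hd1 : d ≠ 0 := by
    rintro rfl
    simp at hd0
  have h1 : (d : ℝ) ^ d ≤ Real.exp d * (d.factorial : ℝ) := by
    have := Real.pow_div_factorial_le_exp (d : ℝ) (by positivity) d
    rwa [div_le_iff₀ (by positivity)] at this
  have h2 : (d : ℝ) ^ d ≤ n * ((Real.exp 1 / 8) * d) ^ d := by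
    calc (d : ℝ) ^ d ≤ _ := h1
      _ ≤ Real.exp d * (n * ((n : ℝ) * p) ^ d) := by gcongr
      _ ≤ Real.exp d * (n * ((d : ℝ) / 8) ^ d) := by
          have : (n : ℝ) * p ≤ d / 8 := by linarith
          gcongr
      _ = n * ((Real.exp 1 / 8) * d) ^ d := by
          have : Real.exp (d : ℝ) = Real.exp 1 ^ d := by rw [← Real.exp_nat_mul, mul_one]
          rw [this, show Real.exp 1 / 8 * (d : ℝ) = Real.exp 1 * (d / 8) by ring, mul_pow]
          ring
  have h3 : (1 : ℝ) ≤ n * (Real.exp 1 / 8) ^ d := by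
    rw [mul_pow, ← mul_assoc] at h2
    have h4 : 0 < (d : ℝ) ^ d := by positivity
    by_contra hcon
    push Not at hcon
    nlinarith
  have h5 : Real.exp 1 / 8 < Real.exp (-1) := by
    rw [div_lt_iff₀ (by norm_num), Real.exp_neg]
    have h6 := exp_two_le
    have h7 := Real.exp_pos 1
    rw [inv_mul_eq_div, lt_div_iff₀ h7]
    nlinarith
  have h6 : (Real.exp 1 / 8) ^ d < Real.exp (-(d : ℝ)) := by
    calc (Real.exp 1 / 8) ^ d < (Real.exp (-1)) ^ d :=
          pow_lt_pow_left₀ h5 (by positivity) hd1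
      _ = Real.exp (-(d : ℝ)) := by rw [← Real.exp_nat_mul]; ring_nf
  have h7 : Real.exp (d : ℝ) < n := by
    have h8 : 1 < n * Real.exp (-(d : ℝ)) := by
      calc (1 : ℝ) ≤ n * (Real.exp 1 / 8) ^ d := h3
        _ < n * Real.exp (-(d : ℝ)) := by gcongr
    rw [Real.exp_neg, ← div_eq_mul_inv, lt_div_iff₀ (Real.exp_pos _), one_mul] at h8
    exact h8
  rw [Real.lt_log_iff_exp_lt hn0]
  exact h7

theorem final (hX : TaskExt) (hCn : TaskConn) (hDe : TaskDesc) (hM : TaskMono)
    (hCt : TaskCount) (hS : TaskStar) (hF : TaskForest) :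
    ∃ C : ℝ, 0 < C ∧ ∀ n : ℕ, 2 ≤ n → ∀ k : ℕ, k ≤ n → ∀ H : SimpleGraph (Fin k),
      ∀ p : ℝ, 0 ≤ p → ExpOK n k H p →
      (∀ D : ℕ, MaxDeg H D → ∀ q : ℝ, q = min 1 (C * D * p * Real.log (n : ℝ)) →
        (1 / 2 : ℝ) ≤ Pr (EE n) q (Good n k H)) ∧
      (∀ q : ℝ, q = min 1 (C * max ((n : ℝ) * p) (Real.log (n : ℝ)) * p * Real.log (n : ℝ)) →
        (1 / 2 : ℝ) ≤ Pr (EE n) q (Good n k H)) ∧
      (H.IsAcyclic →
        (∀ q : ℝ, q = min 1 (C * p * Real.log (n : ℝ) ^ 2) →
          (1 / 2 : ℝ) ≤ Pr (EE n) q (Good n k H)) ∧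
        ((∃ v, Real.log (n : ℝ) ≤ (H.neighborSet v).ncard) →
          ∀ q : ℝ, q = min 1 (C * p * Real.log (n : ℝ)) →
            (1 / 2 : ℝ) ≤ Pr (EE n) q (Good n k H))) := by
  classical
  refine ⟨600000, by norm_num, ?_⟩
  intro n hn k hkn H p hp0 hE
  have hn1 : 1 ≤ n := by omega
  have hn2 : (2 : ℝ) ≤ n := by exact_mod_cast hn
  have hlog2 : 0.6931471803 < Real.log 2 := Real.log_two_gt_d9
  have hlogn : Real.log 2 ≤ Real.log n := Real.log_le_log (by norm_num) hn2
  have hlogpos : 0 < Real.log n := by linarith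
  have hemb : Nonempty (Fin k ↪ Fin n) := ⟨(Fin.castLEEmb hkn)⟩
  obtain ⟨f0⟩ := hemb
  by_cases hbot : ∀ a b, ¬ H.Adj a b
  · -- no edges
    have hall : ∀ S : Finset (Fin n × Fin n), S ∈ Good n k H := fun S =>
      ⟨f0, f0.injective, fun a b hab => absurd hab (hbot a b)⟩
    have hone : ∀ q : ℝ, (1 / 2 : ℝ) ≤ Pr (EE n) q (Good n k H) := by
      intro q
      have : Pr (EE n) q (Good n k H) = 1 := by
        rw [← sum_one (EE n) q]
        unfold Pr
        apply Finset.sum_congr rfl
        intro S _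
        rw [Set.indicator_of_mem (hall S)]
      rw [this]
      norm_num
    exact ⟨fun D _ q _ => hone q, fun q _ => hone q, fun _ => ⟨fun q _ => hone q,
      fun _ q _ => hone q⟩⟩
  · push Not at hbot
    obtain ⟨a0, b0, hab⟩ := hbot
    -- p > 0
    have hppos : 0 < p := by
      rcases hp0.lt_or_eq with h | h
      · exact h
      · exfalso
        have h1 := hE ⊤
        have h2 : (⊤ : H.Subgraph).edgeSet.ncard ≠ 0 := by
          have h3 : 0 < (⊤ : H.Subgraph).edgeSet.ncard := by
            rw [Set.ncard_pos (Set.toFinite _)]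
            exact ⟨s(a0, b0), by simpa using hab⟩
          omega
        rw [← h, zero_pow h2, mul_zero] at h1
        linarith
    -- first bound
    have B1 : ∀ D : ℕ, MaxDeg H D → ∀ q : ℝ, min 1 (72000 * D * p * Real.log (n : ℝ)) ≤ q →
        q ≤ 1 → (1 / 2 : ℝ) ≤ Pr (EE n) q (Good n k H) := by
      intro D hD q hq hq1
      have hD1 : 1 ≤ D := by
        have h1 := hD a0
        have h2 : 0 < (H.neighborSet a0).ncard := by
          rw [Set.ncard_pos (Set.toFinite _)]
          exact ⟨b0, hab⟩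
        omega
      have hDr : (1 : ℝ) ≤ D := by exact_mod_cast hD1
      by_cases hp1 : p ≤ 1
      · apply core hX hDe hM hCt n hn k hkn H (12 * D * p) (by positivity) ?_ q ?_ hq1
        · exact compGen n k H (12 * D * p) (fun V _ G hG =>
            hCn V G hG n k H D p hn1 hkn hp0 hp1 hD hE)
        · refine le_trans (le_of_eq ?_) hq
          congr 1
          ring
      · -- p > 1: q = 1
        push Not at hp1
        have h1 : 1 ≤ 72000 * D * p * Real.log (n : ℝ) := by
          have h2 : (1 : ℝ) ≤ D * p := by nlinarith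
          nlinarith
        rw [min_eq_left h1] at hq
        have hC1 : ∀ (V : Type) [Fintype V] (G : SimpleGraph V),
            ((Emb G H).ncard : ℝ) ≤ (n : ℝ) ^ (Fintype.card V) * (1 : ℝ) ^ (G.edgeSet.ncard) := by
          intro V _ G
          rw [one_pow, mul_one]
          have h3 : (Emb G H).ncard ≤ k ^ Fintype.card V := by
            calc (Emb G H).ncard ≤ (Set.univ : Set (V → Fin k)).ncard :=
                  Set.ncard_le_ncard (Set.subset_univ _) (Set.toFinite _)
              _ = k ^ Fintype.card V := by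
                  rw [Set.ncard_univ, Nat.card_eq_fintype_card, Fintype.card_fun, Fintype.card_fin]
          calc ((Emb G H).ncard : ℝ) ≤ ((k ^ Fintype.card V : ℕ) : ℝ) := by exact_mod_cast h3
            _ ≤ (n : ℝ) ^ (Fintype.card V) := by
                push_cast
                have : (k : ℝ) ≤ n := by exact_mod_cast hkn
                gcongr
        exact core hX hDe hM hCt n hn k hkn H 1 one_pos hC1 q
          ((min_le_left _ _).trans hq) hq1
    have hdeg : ∀ v, ((H.neighborSet v).ncard : ℝ) ≤ max (8 * ((n : ℝ) * p)) (Real.log n) := by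
      intro v
      rcases le_or_gt ((H.neighborSet v).ncard : ℝ) (8 * ((n : ℝ) * p)) with h | h
      · exact h.trans (le_max_left _ _)
      · exact (deg_bound n _ hn1 p hp0 (hS n k H p hn1 hp0 hE v) h).le.trans (le_max_right _ _)
    have hle1 : ∀ t : ℝ, min 1 t ≤ 1 := fun t => min_le_left _ _
    refine ⟨?_, ?_, ?_⟩
    · intro D hD q hq
      apply B1 D hD q _ (by rw [hq]; exact hle1 _)
      rw [hq]
      apply min_le_min le_rfl
      have : 0 ≤ (D : ℝ) * p * Real.log n := by positivity
      nlinarith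
    · intro q hq
      set m := max (8 * ((n : ℝ) * p)) (Real.log n) with hm
      have hm0 : 0 ≤ m := le_trans hlogpos.le (le_max_right _ _)
      have hD : MaxDeg H ⌊m⌋₊ := fun v => Nat.le_floor (hdeg v)
      apply B1 _ hD q _ (by rw [hq]; exact hle1 _)
      rw [hq]
      apply min_le_min le_rfl
      have h1 : ((⌊m⌋₊ : ℕ) : ℝ) ≤ m := Nat.floor_le hm0
      have h2 : m ≤ 8 * max ((n : ℝ) * p) (Real.log n) := by
        rw [hm]
        apply max_le
        · have := le_max_left ((n : ℝ) * p) (Real.log n)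
          linarith
        · have := le_max_right ((n : ℝ) * p) (Real.log n)
          linarith
      have h3 : ((⌊m⌋₊ : ℕ) : ℝ) * (p * Real.log n) ≤
          (8 * max ((n : ℝ) * p) (Real.log n)) * (p * Real.log n) := by
        apply mul_le_mul_of_nonneg_right (h1.trans h2) (by positivity)
      have h4 : 0 ≤ max ((n : ℝ) * p) (Real.log n) * (p * Real.log n) := by
        apply mul_nonneg (le_trans hlogpos.le (le_max_right _ _)) (by positivity)
      calc 72000 * ((⌊m⌋₊ : ℕ) : ℝ) * p * Real.log n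
          = 72000 * (((⌊m⌋₊ : ℕ) : ℝ) * (p * Real.log n)) := by ring
        _ ≤ 72000 * ((8 * max ((n : ℝ) * p) (Real.log n)) * (p * Real.log n)) := by gcongr
        _ = 576000 * (max ((n : ℝ) * p) (Real.log n) * (p * Real.log n)) := by ring
        _ ≤ 600000 * (max ((n : ℝ) * p) (Real.log n) * (p * Real.log n)) := by gcongr; norm_num
        _ = _ := by ring
    · intro hac
      have B3 : (∃ v, Real.log (n : ℝ) ≤ (H.neighborSet v).ncard) →
          ∀ q : ℝ, min 1 (48000 * p * Real.log (n : ℝ)) ≤ q → q ≤ 1 →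
            (1 / 2 : ℝ) ≤ Pr (EE n) q (Good n k H) := by
        rintro ⟨v, hv⟩ q hq hq1
        obtain ⟨w, -, hw⟩ := Finset.exists_max_image (univ : Finset (Fin k))
          (fun v => (H.neighborSet v).ncard) ⟨v, mem_univ _⟩
        set D := (H.neighborSet w).ncard with hDdef
        have hD : MaxDeg H D := fun u => hw u (mem_univ _)
        have hDlog : Real.log n ≤ D := hv.trans (by exact_mod_cast hw v (mem_univ _))
        have hD8 : (D : ℝ) ≤ 8 * ((n : ℝ) * p) := by
          by_contra hcon
          push Not at hcon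
          have := deg_bound n D hn1 p hp0 (hS n k H p hn1 hp0 hE w) hcon
          linarith
        have hDn : (D : ℝ) / n ≤ 8 * p := by
          rw [div_le_iff₀ (by linarith)]
          linarith
        apply core hX hDe hM hCt n hn k hkn H (8 * p) (by positivity) ?_ q ?_ hq1
        · intro V _ G
          refine (compGen n k H ((D : ℝ) / n) (fun V _ G hG =>
            hF V G hG n k H D hn1 hkn hD hac) V G).trans ?_
          gcongr
        · refine le_trans (le_of_eq ?_) hq
          congr 1
          ring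
      refine ⟨?_, ?_⟩
      · intro q hq
        by_cases hv : ∃ v, Real.log (n : ℝ) ≤ (H.neighborSet v).ncard
        · apply B3 hv q _ (by rw [hq]; exact hle1 _)
          rw [hq]
          apply min_le_min le_rfl
          have h1 : 0.69 * Real.log (n : ℝ) ≤ Real.log (n : ℝ) ^ 2 := by nlinarith
          have h2 : 48000 * Real.log (n : ℝ) ≤ 600000 * Real.log (n : ℝ) ^ 2 := by nlinarith
          calc 48000 * p * Real.log (n : ℝ) = p * (48000 * Real.log (n : ℝ)) := by ring
            _ ≤ p * (600000 * Real.log (n : ℝ) ^ 2) := by gcongr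
            _ = _ := by ring
        · push Not at hv
          have hD : MaxDeg H ⌊Real.log (n : ℝ)⌋₊ := fun v => Nat.le_floor (hv v).le
          apply B1 _ hD q _ (by rw [hq]; exact hle1 _)
          rw [hq]
          apply min_le_min le_rfl
          have h1 : ((⌊Real.log (n : ℝ)⌋₊ : ℕ) : ℝ) ≤ Real.log n := Nat.floor_le hlogpos.le
          calc 72000 * ((⌊Real.log (n : ℝ)⌋₊ : ℕ) : ℝ) * p * Real.log n
              = ((⌊Real.log (n : ℝ)⌋₊ : ℕ) : ℝ) * (72000 * p * Real.log n) := by ring
            _ ≤ Real.log n * (72000 * p * Real.log n) := by gcongr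
            _ ≤ Real.log n * (600000 * p * Real.log n) := by gcongr; norm_num
            _ = _ := by ring
      · intro hv q hq
        apply B3 hv q _ (by rw [hq]; exact hle1 _)
        rw [hq]
        apply min_le_min le_rfl
        have : 0 ≤ p * Real.log n := by positivity
        nlinarith

end Pool.Agent.H942R3.KK
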