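import Pool.Agent.H942R3.KK.Stmts

/-! KK project (helper942), third round: vertex-transitive graphs. -/

set_option autoImplicit false

namespace Pool.Agent.H942R3.KK

open Finset

/-- vertex-transitive -/
def VT {V : Type} (H : SimpleGraph V) : Prop := ∀ x y, ∃ φ : H ≃g H, φ x = y

/-- number of edges leaving `S` -/
noncomputable def bd {V : Type} (H : SimpleGraph V) (S : Set V) : ℕ :=
  {e : V × V | e.1 ∈ S ∧ e.2 ∉ S ∧ H.Adj e.1 e.2}.ncard

/-- Task Mader: a connected vertex-transitive graph of degree `d` has edge connectivity `d`. -/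
def TaskMader : Prop :=
  ∀ (V : Type) [Fintype V] (H : SimpleGraph V) (d : ℕ), H.Connected → VT H →
    (∀ x, (H.neighborSet x).ncard = d) → ∀ S : Set V, S.Nonempty → S ≠ Set.univ → d ≤ bd H S

/-- Task DegB: degree count of an induced subgraph. -/
def TaskDegB : Prop :=
  ∀ (V : Type) [Fintype V] (H : SimpleGraph V) (d : ℕ),
    (∀ x, (H.neighborSet x).ncard = d) → ∀ S : Set V,
      2 * (H.induce S).edgeSet.ncard + bd H S = d * S.ncard

/-- Task Bal: connected vertex-transitive graphs are balanced. -/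
def TaskBal : Prop :=
  ∀ (V0 : Type) [Fintype V0] (G0 : SimpleGraph V0) (d : ℕ), G0.Connected → VT G0 →
    (∀ x, (G0.neighborSet x).ncard = d) →
    ∀ (V : Type) [Fintype V] (G : SimpleGraph V), G.Connected →
    ∀ g : V → V0, Function.Injective g → (∀ x y, G.Adj x y → G0.Adj (g x) (g y)) →
      G.edgeSet.ncard * (Fintype.card V0 - 1) ≤ G0.edgeSet.ncard * (Fintype.card V - 1)

/-- Task Struct: the components of a vertex-transitive graph. -/
def TaskStruct : Prop :=
  ∀ (k : ℕ) (H : SimpleGraph (Fin k)), VT H → ∀ x0 : Fin k,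
    ∃ (V0 : Type) (_ : Fintype V0) (G0 : SimpleGraph V0), G0.Connected ∧ VT G0 ∧
      (∀ y, (G0.neighborSet y).ncard = (H.neighborSet x0).ncard) ∧
      (∃ M : Finset (V0 → Fin k), (∀ g ∈ M, g ∈ Emb G0 H) ∧
        (∀ g ∈ M, ∀ g' ∈ M, g ≠ g' → ∀ x y, g x ≠ g' y) ∧ k = M.card * Fintype.card V0) ∧
      (∀ (V : Type) [Fintype V] (G : SimpleGraph V), G.Connected → (Emb G H).Nonempty →
        ∃ g : V → V0, Function.Injective g ∧ ∀ x y, G.Adj x y → G0.Adj (g x) (g y))

end Pool.Agent.H942R3.KK
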