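import Pool.Agent.H942R3.KK.Final2
import Pool.Agent.H942R3.KK.Stmts3

set_option autoImplicit false

namespace Pool.Agent.H942R3.KK

open Finset H560R2

/-- the arithmetic comparison -/
lemma arith1 (n k d v v0 e e0 : ℕ) (hkn : k ≤ n) (hdn : d ≤ n) (hv : 1 ≤ v) (hv0 : 1 ≤ v0)
    (h1 : e ≤ e0) (h2 : e * (v0 - 1) ≤ e0 * (v - 1)) :
    (k * d ^ (v - 1)) ^ e0 * (n ^ v0) ^ e ≤ (n ^ v) ^ e0 * (k * d ^ (v0 - 1)) ^ e := by
  obtain ⟨A, hA⟩ := Nat.exists_eq_add_of_le h1
  obtain ⟨B, hB⟩ := Nat.exists_eq_add_of_le h2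
  obtain ⟨v', rfl⟩ := Nat.exists_eq_add_of_le' hv
  obtain ⟨v0', rfl⟩ := Nat.exists_eq_add_of_le' hv0
  simp only [Nat.add_sub_cancel] at *
  have h3 : (v' + 1) * e0 = A + B + (v0' + 1) * e := by nlinarith
  calc (k * d ^ v') ^ e0 * (n ^ (v0' + 1)) ^ e
      = k ^ e0 * d ^ (e0 * v') * n ^ ((v0' + 1) * e) := by
        rw [mul_pow, ← pow_mul, ← pow_mul, mul_comm v' e0]
    _ = (k ^ e * d ^ (e * v0')) * (k ^ A * d ^ B * n ^ ((v0' + 1) * e)) := by
        rw [hB, hA, pow_add, pow_add]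
        ring
    _ ≤ (k ^ e * d ^ (e * v0')) * (n ^ A * n ^ B * n ^ ((v0' + 1) * e)) := by
        gcongr
    _ = (n ^ (v' + 1)) ^ e0 * (k * d ^ v0') ^ e := by
        rw [← pow_mul, h3, pow_add, pow_add, mul_pow, ← pow_mul d, mul_comm v0' e]
        ring

lemma arith2 (e : ℕ) (he : 1 ≤ e) : Real.exp 1 * ((e : ℝ) + 1) ≤ 6 ^ e := by
  have h1 : Real.exp 1 ≤ 2.72 := by
    have := Real.exp_one_lt_d9
    linarith
  have h2 : ∀ e : ℕ, 1 ≤ e → 2.72 * ((e : ℝ) + 1) ≤ 6 ^ e := by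
    intro e he
    induction e, he using Nat.le_induction with
    | base => norm_num
    | succ m hm ih =>
      have hm' : (1 : ℝ) ≤ m := by exact_mod_cast hm
      have h3 : 2.72 * (((m + 1 : ℕ) : ℝ) + 1) ≤ 6 * (2.72 * ((m : ℝ) + 1)) := by
        push_cast
        nlinarith
      calc _ ≤ _ := h3
        _ ≤ 6 * 6 ^ m := by gcongr
        _ = 6 ^ (m + 1) := by ring
  calc _ ≤ 2.72 * ((e : ℝ) + 1) := by
        apply mul_le_mul_of_nonneg_right h1 (by positivity)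
    _ ≤ _ := h2 e he

/-- `24 ^ e0` against `e · v0 · d ^ (v0 - 1)` -/
lemma arith3 (d v0 e0 : ℕ) (hd : 1 ≤ d) (hv0 : 1 ≤ v0) (h : 2 * e0 = d * v0) (h1 : v0 ≤ e0 + 1)
    (he0 : 1 ≤ e0) :
    Real.exp 1 * (v0 : ℝ) * (d : ℝ) ^ (v0 - 1) ≤ 24 ^ e0 := by
  have h2 : (d : ℝ) ^ (v0 - 1) ≤ 4 ^ e0 := by
    have h3 : (4 : ℝ) ^ e0 = 2 ^ (d * v0) := by
      rw [← h, pow_mul]
      norm_num
    rw [h3]
    have h4 : d ^ (v0 - 1) ≤ 2 ^ (d * v0) := by
      calc d ^ (v0 - 1) ≤ d ^ v0 := Nat.pow_le_pow_right hd (by omega)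
        _ ≤ (2 ^ d) ^ v0 := Nat.pow_le_pow_left (Nat.lt_two_pow_self).le _
        _ = 2 ^ (d * v0) := by rw [← pow_mul]
    exact_mod_cast h4
  have h5 : Real.exp 1 * (v0 : ℝ) ≤ 6 ^ e0 := by
    refine le_trans ?_ (arith2 e0 he0)
    have : (v0 : ℝ) ≤ (e0 : ℝ) + 1 := by exact_mod_cast h1
    gcongr
  calc _ ≤ (6 : ℝ) ^ e0 * 4 ^ e0 := by gcongr
    _ = 24 ^ e0 := by rw [← mul_pow]; norm_num

/-- embeddings of a connected graph in a graph of bounded degree -/
lemma emb_le (hR : TaskRoot) (V : Type) [Fintype V] (G : SimpleGraph V) (hG : G.Connected)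
    (k : ℕ) (H : SimpleGraph (Fin k)) (d : ℕ) (hd : MaxDeg H d) :
    (Emb G H).ncard ≤ k * d ^ (Fintype.card V - 1) := by
  classical
  obtain ⟨x⟩ := hG.nonempty
  have hfin : (Emb G H).Finite := Set.toFinite _
  have h1 : Emb G H = ⋃ u ∈ (univ : Finset (Fin k)), {g | g ∈ Emb G H ∧ g x = u} := by
    ext g
    simp
  calc (Emb G H).ncard = (⋃ u ∈ (univ : Finset (Fin k)), {g | g ∈ Emb G H ∧ g x = u}).ncard := by
        rw [← h1]
    _ ≤ ∑ u ∈ (univ : Finset (Fin k)), {g | g ∈ Emb G H ∧ g x = u}.ncard :=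
        Finset.set_ncard_biUnion_le _ _
    _ ≤ ∑ _u ∈ (univ : Finset (Fin k)), d ^ (Fintype.card V - 1) :=
        Finset.sum_le_sum (fun u _ => hR V G hG k H d hd x u)
    _ = k * d ^ (Fintype.card V - 1) := by simp

/-- degrees in a vertex-transitive graph -/
lemma vt_deg {k : ℕ} (H : SimpleGraph (Fin k)) (hH : VT H) (x y : Fin k) :
    (H.neighborSet x).ncard = (H.neighborSet y).ncard := by
  obtain ⟨φ, hφ⟩ := hH x y
  have h1 : H.neighborSet y = φ '' (H.neighborSet x) := by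
    ext z
    simp only [SimpleGraph.mem_neighborSet, Set.mem_image]
    constructor
    · intro hz
      refine ⟨φ.symm z, ?_, φ.apply_symm_apply z⟩
      rw [← φ.map_adj_iff, φ.apply_symm_apply, hφ]
      exact hz
    · rintro ⟨w, hw, rfl⟩
      rw [← hφ, φ.map_adj_iff]
      exact hw
  rw [h1, Set.ncard_image_of_injective _ φ.injective]

theorem vtConn (hR : TaskRoot) (hP : TaskPack) (hB : TaskBal) (hSt : TaskStruct)
    (n k : ℕ) (hn : 1 ≤ n) (hkn : k ≤ n) (H : SimpleGraph (Fin k)) (hH : VT H)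
    (p : ℝ) (hp0 : 0 ≤ p) (hp1 : p ≤ 1) (hE : ExpOK n k H p) (a0 b0 : Fin k) (hab : H.Adj a0 b0)
    (V : Type) [Fintype V] (G : SimpleGraph V) (hG : G.Connected) :
    ((Emb G H).ncard : ℝ) ≤ (n : ℝ) ^ (Fintype.card V) * (24 * p) ^ (G.edgeSet.ncard) := by
  classical
  have hn1 : (1 : ℝ) ≤ n := by exact_mod_cast hn
  rcases (Emb G H).eq_empty_or_nonempty with hemp | hne
  · rw [hemp, Set.ncard_empty]
    push_cast
    positivity
  obtain ⟨V0, hV0, G0, hG0, hG0vt, hdeg, ⟨M, hM1, hM2, hM3⟩, hsub⟩ := hSt k H hH a0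
  obtain ⟨g, hginj, hgadj⟩ := hsub V G hG hne
  set d := (H.neighborSet a0).ncard with hd
  have hd1 : 1 ≤ d := by
    have h2 : 0 < (H.neighborSet a0).ncard := by
      rw [Set.ncard_pos (Set.toFinite _)]
      exact ⟨b0, hab⟩
    omega
  have hMd : MaxDeg H d := fun v => (vt_deg H hH v a0).le
  have hdn : d ≤ n := by
    refine le_trans ?_ hkn
    calc d ≤ (Set.univ : Set (Fin k)).ncard := Set.ncard_le_ncard (Set.subset_univ _) (Set.toFinite _)
      _ = k := by rw [Set.ncard_univ, Nat.card_eq_fintype_card, Fintype.card_fin]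
  have : Nonempty V := hG.nonempty
  have : Nonempty V0 := hG0.nonempty
  set v := Fintype.card V with hv
  set v0 := Fintype.card V0 with hv0
  set e := G.edgeSet.ncard with he
  set e0 := G0.edgeSet.ncard with he0
  have hv1 : 1 ≤ v := Fintype.card_pos
  have hv01 : 1 ≤ v0 := Fintype.card_pos
  have hvv : v ≤ v0 := Fintype.card_le_of_injective g hginj
  have h2e : 2 * e0 = d * v0 := by
    rw [he0, CompX.ncard_eq]
    rw [Finset.sum_congr rfl (fun y _ => hdeg y)]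
    rw [Finset.sum_const, Finset.card_univ, smul_eq_mul, mul_comm]
  have he01 : 1 ≤ e0 := by
    have : 1 ≤ d * v0 := Nat.mul_pos hd1 hv01
    omega
  have hve0 : v0 ≤ e0 + 1 := by
    have := hG0.card_vert_le_card_edgeSet_add_one
    rw [Nat.card_eq_fintype_card] at this
    rw [he0, ← Nat.card_coe_set_eq]
    exact this
  have hbal : e * (v0 - 1) ≤ e0 * (v - 1) := hB V0 G0 d hG0 hG0vt hdeg V G hG g hginj hgadj
  have hv02 : 2 ≤ v0 := by
    by_contra hcon
    have hv00 : v0 = 1 := by omega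
    have hs : Subsingleton V0 := by
      rw [← Fintype.card_le_one_iff_subsingleton]
      omega
    have : e0 = 0 := by
      rw [he0, Set.ncard_eq_zero (Set.toFinite _), Set.eq_empty_iff_forall_notMem]
      intro z
      induction z with
      | h x y =>
        intro hxy
        have hxy' : G0.Adj x y := hxy
        exact hxy'.ne (Subsingleton.elim _ _)
    omega
  have hee : e ≤ e0 := by
    by_contra hcon
    push Not at hcon
    have h3 : e0 * (v - 1) ≤ e0 * (v0 - 1) := Nat.mul_le_mul_left _ (by omega)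
    have h4 : e0 * (v0 - 1) < e * (v0 - 1) := Nat.mul_lt_mul_of_pos_right hcon (by omega)
    omega
  -- the packing
  have hk1 : 1 ≤ k := by have := a0.2; omega
  have hMpos : 1 ≤ M.card := by
    by_contra hcon
    have : M.card = 0 := by omega
    rw [this, zero_mul] at hM3
    omega
  have hnu : (M.card : ℝ) ≤ Real.exp 1 * ((n : ℝ) ^ v0 * p ^ e0) := by
    have h1 := hP V0 G0 n k H p hn hp0 hp1 hE M hM1 hM2
    rw [← hv0, ← he0] at h1
    have h2 : (M.card : ℝ) ^ M.card ≤ Real.exp (M.card) * (M.card.factorial : ℝ) := by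
      have := Real.pow_div_factorial_le_exp (M.card : ℝ) (by positivity) M.card
      rwa [div_le_iff₀ (by positivity)] at this
    have h3 : (M.card : ℝ) ^ M.card ≤ (Real.exp 1 * ((n : ℝ) ^ v0 * p ^ e0)) ^ M.card := by
      calc _ ≤ _ := h2
        _ ≤ Real.exp (M.card) * ((n : ℝ) ^ v0 * p ^ e0) ^ M.card := by gcongr
        _ = _ := by
            rw [mul_pow (Real.exp 1), ← Real.exp_nat_mul, mul_one]
    exact le_of_pow_le_pow_left₀ (by omega) (by positivity) h3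
  have hw : (k : ℝ) * (d : ℝ) ^ (v0 - 1) ≤ (n : ℝ) ^ v0 * (24 * p) ^ e0 := by
    have hkr : (k : ℝ) = M.card * v0 := by exact_mod_cast hM3
    rw [hkr]
    calc ((M.card : ℝ) * v0) * (d : ℝ) ^ (v0 - 1)
        ≤ ((Real.exp 1 * ((n : ℝ) ^ v0 * p ^ e0)) * v0) * (d : ℝ) ^ (v0 - 1) := by gcongr
      _ = (Real.exp 1 * (v0 : ℝ) * (d : ℝ) ^ (v0 - 1)) * ((n : ℝ) ^ v0 * p ^ e0) := by ring
      _ ≤ 24 ^ e0 * ((n : ℝ) ^ v0 * p ^ e0) := by
          have := arith3 d v0 e0 hd1 hv01 h2e hve0 he01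
          gcongr
      _ = (n : ℝ) ^ v0 * (24 * p) ^ e0 := by rw [mul_pow]; ring
  have hmain : ((k : ℝ) * (d : ℝ) ^ (v - 1)) ^ e0 ≤ ((n : ℝ) ^ v * (24 * p) ^ e) ^ e0 := by
    have h1 : ((k : ℝ) * (d : ℝ) ^ (v - 1)) ^ e0 * ((n : ℝ) ^ v0) ^ e ≤
        ((n : ℝ) ^ v) ^ e0 * ((k : ℝ) * (d : ℝ) ^ (v0 - 1)) ^ e := by
      exact_mod_cast arith1 n k d v v0 e e0 hkn hdn hv1 hv01 hee hbal
    have h2 : ((k : ℝ) * (d : ℝ) ^ (v - 1)) ^ e0 * ((n : ℝ) ^ v0) ^ e ≤
        ((n : ℝ) ^ v * (24 * p) ^ e) ^ e0 * ((n : ℝ) ^ v0) ^ e := by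
      calc _ ≤ _ := h1
        _ ≤ ((n : ℝ) ^ v) ^ e0 * ((n : ℝ) ^ v0 * (24 * p) ^ e0) ^ e := by gcongr
        _ = _ := by
            rw [mul_pow ((n : ℝ) ^ v0), mul_pow ((n : ℝ) ^ v) ((24 * p) ^ e), ← pow_mul (24 * p),
              ← pow_mul (24 * p), mul_comm e0 e]
            ring
    exact le_of_mul_le_mul_right h2 (by positivity)
  have hfin : (k : ℝ) * (d : ℝ) ^ (v - 1) ≤ (n : ℝ) ^ v * (24 * p) ^ e :=
    le_of_pow_le_pow_left₀ (by omega) (by positivity) hmain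
  refine le_trans ?_ hfin
  exact_mod_cast emb_le hR V G hG k H d hMd

theorem vtFinal (hR : TaskRoot) (hP : TaskPack) (hX : TaskExt) (hDe : TaskDesc) (hM : TaskMono)
    (hCt : TaskCount) (hB : TaskBal) (hSt : TaskStruct) :
    ∃ C : ℝ, 0 < C ∧ ∀ n : ℕ, 2 ≤ n → ∀ k : ℕ, k ≤ n → ∀ H : SimpleGraph (Fin k), VT H →
      ∀ p : ℝ, 0 ≤ p → ExpOK n k H p →
        ∀ q : ℝ, q = min 1 (C * p * Real.log (n : ℝ)) →
        (1 / 2 : ℝ) ≤ Pr (EE n) q (Good n k H) := by
  classical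
  refine ⟨144000, by norm_num, ?_⟩
  intro n hn k hkn H hH p hp0 hE q hq
  have hn1 : 1 ≤ n := by omega
  have hn2 : (2 : ℝ) ≤ n := by exact_mod_cast hn
  have hlog2 : 0.6931471803 < Real.log 2 := Real.log_two_gt_d9
  have hlogn : Real.log 2 ≤ Real.log n := Real.log_le_log (by norm_num) hn2
  have hlogpos : 0 < Real.log n := by linarith
  have hq1 : q ≤ 1 := by rw [hq]; exact min_le_left _ _
  have hemb : Nonempty (Fin k ↪ Fin n) := ⟨(Fin.castLEEmb hkn)⟩
  obtain ⟨f0⟩ := hemb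
  by_cases hbot : ∀ a b, ¬ H.Adj a b
  · -- no edges
    have hall : ∀ S : Finset (Fin n × Fin n), S ∈ Good n k H := fun S =>
      ⟨f0, f0.injective, fun a b hab => absurd hab (hbot a b)⟩
    have : Pr (EE n) q (Good n k H) = 1 := by
      rw [← sum_one (EE n) q]
      unfold Pr
      apply Finset.sum_congr rfl
      intro S _
      rw [Set.indicator_of_mem (hall S)]
    rw [this]
    norm_num
  · push Not at hbot
    obtain ⟨a0, b0, hab⟩ := hbot
    -- p > 0
    have hppos : 0 < p := by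
      rcases hp0.lt_or_eq with h | h
      · exact h
      · exfalso
        have h1 := hE ⊤
        have h2 : (⊤ : H.Subgraph).edgeSet.ncard ≠ 0 := by
          have h3 : 0 < (⊤ : H.Subgraph).edgeSet.ncard := by
            rw [Set.ncard_pos (Set.toFinite _)]
            exact ⟨s(a0, b0), by simpa using hab⟩
          omega
        rw [← h, zero_pow h2, mul_zero] at h1
        linarith
    by_cases hp1 : p ≤ 1
    · apply core hX hDe hM hCt n hn k hkn H (24 * p) (by positivity) ?_ q ?_ hq1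
      · exact compGen n k H (24 * p) (fun V _ G hG =>
          vtConn hR hP hB hSt n k hn1 hkn H hH p hp0 hp1 hE a0 b0 hab V G hG)
      · rw [hq]
        refine le_of_eq ?_
        congr 1
        ring
    · -- p > 1: q = 1
      push Not at hp1
      have h1 : 1 ≤ 144000 * p * Real.log (n : ℝ) := by nlinarith
      rw [min_eq_left h1] at hq
      have hC1 : ∀ (V : Type) [Fintype V] (G : SimpleGraph V),
          ((Emb G H).ncard : ℝ) ≤ (n : ℝ) ^ (Fintype.card V) * (1 : ℝ) ^ (G.edgeSet.ncard) := by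
        intro V _ G
        rw [one_pow, mul_one]
        have h3 : (Emb G H).ncard ≤ k ^ Fintype.card V := by
          calc (Emb G H).ncard ≤ (Set.univ : Set (V → Fin k)).ncard :=
                Set.ncard_le_ncard (Set.subset_univ _) (Set.toFinite _)
            _ = k ^ Fintype.card V := by
                rw [Set.ncard_univ, Nat.card_eq_fintype_card, Fintype.card_fun, Fintype.card_fin]
        calc ((Emb G H).ncard : ℝ) ≤ ((k ^ Fintype.card V : ℕ) : ℝ) := by exact_mod_cast h3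
          _ ≤ (n : ℝ) ^ (Fintype.card V) := by
              push_cast
              have : (k : ℝ) ≤ n := by exact_mod_cast hkn
              gcongr
      exact core hX hDe hM hCt n hn k hkn H 1 one_pos hC1 q (by rw [hq]; exact min_le_left _ _) hq1

end Pool.Agent.H942R3.KK
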