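import Pool.Agent.H942R3.KK.Final2

set_option autoImplicit false

namespace Pool.Agent.H942R3.KK

open Finset H560R2

/-- the packing bound -/
lemma conn_raw (hR : TaskRoot) (hP : TaskPack) (V : Type) [Fintype V] (G : SimpleGraph V)
    (hG : G.Connected) (n k : ℕ) (H : SimpleGraph (Fin k)) (D : ℕ) (p : ℝ) (hn : 1 ≤ n)
    (hp0 : 0 ≤ p) (hp1 : p ≤ 1) (hD : MaxDeg H D) (hE : ExpOK n k H p)
    (he1 : 1 ≤ G.edgeSet.ncard) :
    ((Emb G H).ncard : ℝ) ≤ 12 ^ (G.edgeSet.ncard) *
      ((n : ℝ) ^ (Fintype.card V) * p ^ (G.edgeSet.ncard)) * (D : ℝ) ^ (Fintype.card V - 1) := by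
  classical
  have : Nonempty V := hG.nonempty
  have hn1 : (1 : ℝ) ≤ n := by exact_mod_cast hn
  set v := Fintype.card V with hv
  set e := G.edgeSet.ncard with he
  have hve : v ≤ e + 1 := by
    have := hG.card_vert_le_card_edgeSet_add_one
    rw [Nat.card_eq_fintype_card] at this
    rw [he, ← Nat.card_coe_set_eq]
    exact this
  have hfin : (Emb G H).Finite := Set.toFinite _
  set EE : Finset (V → Fin k) := hfin.toFinset with hEE
  have hmemE : ∀ g, g ∈ EE ↔ g ∈ Emb G H := fun g => by rw [hEE, Set.Finite.mem_toFinset]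
  let PP : Finset (V → Fin k) → Prop := fun M =>
    ∀ g ∈ M, ∀ g' ∈ M, g ≠ g' → ∀ x y, g x ≠ g' y
  obtain ⟨M, hM, hmax⟩ := Finset.exists_max_image (EE.powerset.filter PP) Finset.card
    ⟨∅, by simp [PP]⟩
  obtain ⟨hM1, hM2⟩ := Finset.mem_filter.mp hM
  rw [Finset.mem_powerset] at hM1
  set U : Finset (Fin k) := M.biUnion (fun g => univ.image g) with hU
  have hUc : U.card ≤ M.card * v := by
    calc U.card ≤ ∑ g ∈ M, (univ.image g).card := Finset.card_biUnion_le
      _ ≤ ∑ _g ∈ M, v := Finset.sum_le_sum (fun g _ => Finset.card_image_le)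
      _ = M.card * v := by simp
  have hhit : ∀ g ∈ EE, ∃ x : V, g x ∈ U := by
    intro g hg
    by_contra hcon
    push Not at hcon
    have hgM : g ∉ M := by
      intro h
      obtain ⟨x⟩ := ‹Nonempty V›
      exact hcon x (Finset.mem_biUnion.mpr ⟨g, h, Finset.mem_image_of_mem _ (mem_univ _)⟩)
    have hne : ∀ g' ∈ M, ∀ x y, g x ≠ g' y := by
      intro g' hg' x y h
      exact hcon x (Finset.mem_biUnion.mpr ⟨g', hg', by
        rw [h]; exact Finset.mem_image_of_mem _ (mem_univ _)⟩)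
    have h1 : insert g M ∈ EE.powerset.filter PP := by
      rw [Finset.mem_filter, Finset.mem_powerset]
      refine ⟨Finset.insert_subset hg hM1, ?_⟩
      intro a ha b hb hab x y
      rcases Finset.mem_insert.mp ha with rfl | ha'
      · rcases Finset.mem_insert.mp hb with rfl | hb'
        · exact absurd rfl hab
        · exact hne b hb' x y
      · rcases Finset.mem_insert.mp hb with rfl | hb'
        · exact fun h => hne a ha' y x h.symm
        · exact hM2 a ha' b hb' hab x y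
    have h2 := hmax _ h1
    rw [Finset.card_insert_of_notMem hgM] at h2
    omega
  -- count
  have hcount : EE.card ≤ v * (M.card * v) * D ^ (v - 1) := by
    have hsub : EE ⊆ (univ ×ˢ U).biUnion (fun z : V × Fin k =>
        EE.filter (fun g => g z.1 = z.2)) := by
      intro g hg
      obtain ⟨x, hx⟩ := hhit g hg
      exact Finset.mem_biUnion.mpr ⟨(x, g x), by simp [hx], Finset.mem_filter.mpr ⟨hg, rfl⟩⟩
    calc EE.card ≤ _ := Finset.card_le_card hsub
      _ ≤ ∑ z ∈ (univ ×ˢ U : Finset (V × Fin k)), (EE.filter (fun g => g z.1 = z.2)).card :=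
          Finset.card_biUnion_le
      _ ≤ ∑ _z ∈ (univ ×ˢ U : Finset (V × Fin k)), D ^ (v - 1) := by
          apply Finset.sum_le_sum
          intro z _
          have := hR V G hG k H D hD z.1 z.2
          rw [← hv] at this
          refine le_trans (le_of_eq ?_) this
          rw [← Set.ncard_coe_finset]
          congr 1
          ext g
          simp [hmemE]
      _ = (v * U.card) * D ^ (v - 1) := by
          rw [Finset.sum_const, Finset.card_product, Finset.card_univ, smul_eq_mul]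
      _ ≤ _ := by gcongr
  -- packing number
  have hnu : (M.card : ℝ) ≤ Real.exp 1 * ((n : ℝ) ^ v * p ^ e) := by
    rcases Nat.eq_zero_or_pos M.card with h0 | h0
    · rw [h0]
      push_cast
      positivity
    · have h1 := hP V G n k H p hn hp0 hp1 hE M (fun g hg => (hmemE g).mp (hM1 hg)) hM2
      rw [← hv, ← he] at h1
      have h2 : (M.card : ℝ) ^ M.card ≤ Real.exp (M.card) * (M.card.factorial : ℝ) := by
        have := Real.pow_div_factorial_le_exp (M.card : ℝ) (by positivity) M.card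
        rwa [div_le_iff₀ (by positivity)] at this
      have h3 : (M.card : ℝ) ^ M.card ≤ (Real.exp 1 * ((n : ℝ) ^ v * p ^ e)) ^ M.card := by
        calc _ ≤ _ := h2
          _ ≤ Real.exp (M.card) * ((n : ℝ) ^ v * p ^ e) ^ M.card := by gcongr
          _ = _ := by
              rw [mul_pow (Real.exp 1), ← Real.exp_nat_mul, mul_one]
      exact le_of_pow_le_pow_left₀ (by omega) (by positivity) h3
  have hEc : ((Emb G H).ncard : ℝ) = EE.card := by
    rw [Set.ncard_eq_toFinset_card _ hfin]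
  rw [hEc]
  have hcr : (EE.card : ℝ) ≤ v * (M.card * v) * (D : ℝ) ^ (v - 1) := by exact_mod_cast hcount
  have hv2 : (v : ℝ) ≤ (e : ℝ) + 1 := by exact_mod_cast hve
  calc (EE.card : ℝ) ≤ v * (M.card * v) * (D : ℝ) ^ (v - 1) := hcr
    _ ≤ ((e : ℝ) + 1) * ((Real.exp 1 * ((n : ℝ) ^ v * p ^ e)) * ((e : ℝ) + 1)) *
        (D : ℝ) ^ (v - 1) := by gcongr
    _ = (((e : ℝ) + 1) ^ 2 * Real.exp 1) * ((n : ℝ) ^ v * p ^ e) * (D : ℝ) ^ (v - 1) := by ring
    _ ≤ (12 ^ e) * ((n : ℝ) ^ v * p ^ e) * (D : ℝ) ^ (v - 1) := by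
        gcongr
        exact sq_le_twelve e he1

/-- embeddings of a connected graph in a graph of bounded degree -/
lemma emb_le4 (hR : TaskRoot) (V : Type) [Fintype V] (G : SimpleGraph V) (hG : G.Connected)
    (k : ℕ) (H : SimpleGraph (Fin k)) (d : ℕ) (hd : MaxDeg H d) :
    (Emb G H).ncard ≤ k * d ^ (Fintype.card V - 1) := by
  classical
  obtain ⟨x⟩ := hG.nonempty
  have hfin : (Emb G H).Finite := Set.toFinite _
  have h1 : Emb G H = ⋃ u ∈ (univ : Finset (Fin k)), {g | g ∈ Emb G H ∧ g x = u} := by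
    ext g
    simp
  calc (Emb G H).ncard = (⋃ u ∈ (univ : Finset (Fin k)), {g | g ∈ Emb G H ∧ g x = u}).ncard := by
        rw [← h1]
    _ ≤ ∑ u ∈ (univ : Finset (Fin k)), {g | g ∈ Emb G H ∧ g x = u}.ncard :=
        Finset.set_ncard_biUnion_le _ _
    _ ≤ ∑ _u ∈ (univ : Finset (Fin k)), d ^ (Fintype.card V - 1) :=
        Finset.sum_le_sum (fun u _ => hR V G hG k H d hd x u)
    _ = k * d ^ (Fintype.card V - 1) := by simp

/-- connected graphs, with the factor `D ^ α` where `p = n ^ (-α)` -/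
theorem alphaConn (hR : TaskRoot) (hP : TaskPack) (n k : ℕ) (hn : 2 ≤ n) (hkn : k ≤ n)
    (H : SimpleGraph (Fin k)) (D : ℕ) (hD1 : 1 ≤ D) (hDn : D ≤ n) (hD : MaxDeg H D)
    (α : ℝ) (hα : 0 ≤ α) (p : ℝ) (hp : p = (n : ℝ) ^ (-α)) (hE : ExpOK n k H p)
    (V : Type) [Fintype V] (G : SimpleGraph V) (hG : G.Connected) :
    ((Emb G H).ncard : ℝ) ≤
      (n : ℝ) ^ (Fintype.card V) * (12 * (D : ℝ) ^ α * p) ^ (G.edgeSet.ncard) := by
  classical
  have hn2 : (2 : ℝ) ≤ n := by exact_mod_cast hn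
  have hn0 : (0 : ℝ) < n := by linarith
  have hn1 : (1 : ℝ) ≤ n := by linarith
  have hL : 0 < Real.log n := Real.log_pos (by linarith)
  have hD0 : (0 : ℝ) < D := by exact_mod_cast hD1
  have hDr : (1 : ℝ) ≤ D := by exact_mod_cast hD1
  have hDnr : (D : ℝ) ≤ n := by exact_mod_cast hDn
  have hl0 : 0 ≤ Real.log D := Real.log_nonneg hDr
  have hlL : Real.log D ≤ Real.log n := Real.log_le_log hD0 hDnr
  have hp0 : 0 < p := by rw [hp]; exact Real.rpow_pos_of_pos hn0 _
  have hp1 : p ≤ 1 := by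
    rw [hp]
    exact Real.rpow_le_one_of_one_le_of_nonpos hn1 (by linarith)
  have : Nonempty V := hG.nonempty
  have hv1 : 1 ≤ Fintype.card V := Fintype.card_pos
  obtain ⟨v', hv'⟩ := Nat.exists_eq_add_of_le' hv1
  rcases Nat.eq_zero_or_pos G.edgeSet.ncard with he0 | he1
  · -- one vertex
    have hve : Fintype.card V ≤ G.edgeSet.ncard + 1 := by
      have := hG.card_vert_le_card_edgeSet_add_one
      rw [Nat.card_eq_fintype_card] at this
      rw [← Nat.card_coe_set_eq]
      exact this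
    have h1 := emb_le4 hR V G hG k H D hD
    have hv : Fintype.card V = 1 := by omega
    rw [hv, Nat.sub_self, pow_zero, mul_one] at h1
    rw [hv, he0, pow_one, pow_zero, mul_one]
    exact_mod_cast h1.trans hkn
  · set e := G.edgeSet.ncard with he
    rcases le_total ((e : ℝ) * α) (v' : ℝ) with hc | hc
    · -- sparse
      have h1 := emb_le4 hR V G hG k H D hD
      rw [hv', Nat.add_sub_cancel] at h1
      have h2 : ((Emb G H).ncard : ℝ) ≤ (n : ℝ) * (D : ℝ) ^ v' := by
        calc ((Emb G H).ncard : ℝ) ≤ ((k * D ^ v' : ℕ) : ℝ) := by exact_mod_cast h1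
          _ ≤ (n : ℝ) * (D : ℝ) ^ v' := by
              push_cast
              have : (k : ℝ) ≤ n := by exact_mod_cast hkn
              gcongr
      rw [hv']
      -- `(D/n)^v' ≤ (D^α p)^e`
      have h3 : ((D : ℝ) / n) ^ v' ≤ ((D : ℝ) ^ α * p) ^ e := by
        have hx0 : 0 < (D : ℝ) / n := by positivity
        have h4 : (D : ℝ) ^ α * p = ((D : ℝ) / n) ^ α := by
          rw [Real.div_rpow hD0.le hn0.le, hp, Real.rpow_neg hn0.le, div_eq_mul_inv]
        rw [h4, ← Real.rpow_natCast, ← Real.rpow_natCast, ← Real.rpow_mul hx0.le]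
        apply Real.rpow_le_rpow_of_exponent_ge hx0
        · rw [div_le_one hn0]
          exact hDnr
        · rw [mul_comm]
          exact hc
      calc ((Emb G H).ncard : ℝ) ≤ (n : ℝ) * (D : ℝ) ^ v' := h2
        _ = (n : ℝ) ^ (v' + 1) * ((D : ℝ) / n) ^ v' := by
            rw [div_pow, pow_succ]
            field_simp
        _ ≤ (n : ℝ) ^ (v' + 1) * ((D : ℝ) ^ α * p) ^ e := by gcongr
        _ ≤ (n : ℝ) ^ (v' + 1) * (12 * (D : ℝ) ^ α * p) ^ e := by
            have : (D : ℝ) ^ α * p ≤ 12 * (D : ℝ) ^ α * p := by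
              have : 0 < (D : ℝ) ^ α * p := by positivity
              nlinarith
            gcongr
    · -- dense
      have h1 := conn_raw hR hP V G hG n k H D p (by omega) hp0.le hp1 hD hE he1
      rw [hv', Nat.add_sub_cancel, ← he] at h1
      rw [hv']
      have h2 : (D : ℝ) ^ v' ≤ ((D : ℝ) ^ α) ^ e := by
        rw [← Real.rpow_natCast, ← Real.rpow_natCast, ← Real.rpow_mul hD0.le]
        apply Real.rpow_le_rpow_of_exponent_le hDr
        rw [mul_comm]
        exact hc
      calc ((Emb G H).ncard : ℝ) ≤ _ := h1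
        _ ≤ 12 ^ e * ((n : ℝ) ^ (v' + 1) * p ^ e) * ((D : ℝ) ^ α) ^ e := by gcongr
        _ = _ := by
            rw [mul_pow (12 * (D : ℝ) ^ α), mul_pow 12]
            ring

/-- the expected number of copies of one subgraph -/
lemma alpha_le (n k : ℕ) (hn : 2 ≤ n) (H : SimpleGraph (Fin k)) (α p : ℝ)
    (hp : p = (n : ℝ) ^ (-α)) (hE : ExpOK n k H p) (F : H.Subgraph) (hF : 0 < F.edgeSet.ncard) :
    α ≤ (F.verts.ncard : ℝ) / (F.edgeSet.ncard : ℝ) := by
  have hn2 : (2 : ℝ) ≤ n := by exact_mod_cast hn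
  have hn0 : (0 : ℝ) < n := by linarith
  have hL : 0 < Real.log n := Real.log_pos (by linarith)
  have hp0 : 0 < p := by rw [hp]; exact Real.rpow_pos_of_pos hn0 _
  have hF' : (0 : ℝ) < F.edgeSet.ncard := by exact_mod_cast hF
  have h1 := hE F
  have hcard : 1 ≤ Nat.card {σ : Equiv.Perm F.verts //
              ∀ x y : F.verts, F.Adj x y ↔ F.Adj (σ x) (σ y)} := by
    have : Nonempty {σ : Equiv.Perm F.verts //
              ∀ x y : F.verts, F.Adj x y ↔ F.Adj (σ x) (σ y)} := ⟨⟨1, fun x y => Iff.rfl⟩⟩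
    exact Nat.card_pos
  have h2 : (1 : ℝ) ≤ (n : ℝ) ^ (F.verts.ncard) * p ^ F.edgeSet.ncard := by
    refine h1.trans ?_
    have h3 : (n.descFactorial F.verts.ncard : ℝ) / (Nat.card {σ : Equiv.Perm F.verts //
              ∀ x y : F.verts, F.Adj x y ↔ F.Adj (σ x) (σ y)} : ℝ) ≤
        (n : ℝ) ^ (F.verts.ncard) := by
      rw [div_le_iff₀ (by exact_mod_cast hcard)]
      have h4 : (n.descFactorial F.verts.ncard : ℝ) ≤ (n : ℝ) ^ (F.verts.ncard) := by
        exact_mod_cast Nat.descFactorial_le_pow n _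
      have h5 : (1 : ℝ) ≤ (Nat.card {σ : Equiv.Perm F.verts //
              ∀ x y : F.verts, F.Adj x y ↔ F.Adj (σ x) (σ y)} : ℝ) := by exact_mod_cast hcard
      nlinarith [pow_pos hn0 (F.verts.ncard)]
    gcongr
  rw [hp, ← Real.rpow_natCast, ← Real.rpow_natCast, ← Real.rpow_mul hn0.le,
    ← Real.rpow_add hn0] at h2
  rw [le_div_iff₀ hF']
  by_contra hcon
  push Not at hcon
  have h6 : (n : ℝ) ^ ((F.verts.ncard : ℝ) + -α * (F.edgeSet.ncard : ℝ)) < 1 :=
    Real.rpow_lt_one_of_one_lt_of_neg (by linarith) (by linarith)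
  linarith

lemma sq_le_three (d : ℕ) : d ^ 2 ≤ 3 ^ d := by
  have h : ∀ m : ℕ, 1 ≤ m → m ^ 2 ≤ 3 ^ m := by
    intro m hm
    induction m, hm using Nat.le_induction with
    | base => norm_num
    | succ m hm ih =>
      rcases Nat.lt_or_ge m 2 with h | h
      · have : m = 1 := by omega
        subst this
        norm_num
      · rw [pow_succ 3]
        nlinarith
  rcases Nat.eq_zero_or_pos d with h0 | h0
  · subst h0
    norm_num
  · exact h d h0

/-- `d ^ (2/d) ≤ 3` -/
lemma reg_factor (d : ℕ) (hd : 1 ≤ d) : (d : ℝ) ^ ((2 : ℝ) / d) ≤ 3 := by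
  have hd0 : (0 : ℝ) < d := by exact_mod_cast hd
  have h1 : ((d : ℝ) ^ 2) ≤ 3 ^ d := by exact_mod_cast sq_le_three d
  have h2 : (d : ℝ) ^ ((2 : ℝ) / d) = ((d : ℝ) ^ 2) ^ ((1 : ℝ) / d) := by
    rw [← Real.rpow_natCast (d : ℝ) 2, ← Real.rpow_mul hd0.le]
    congr 1
    push_cast
    ring
  have h3 : (3 : ℝ) = ((3 : ℝ) ^ d) ^ ((1 : ℝ) / d) := by
    rw [← Real.rpow_natCast (3 : ℝ) d, ← Real.rpow_mul (by norm_num)]
    rw [mul_one_div_cancel hd0.ne', Real.rpow_one]
  rw [h2]
  calc ((d : ℝ) ^ 2) ^ ((1 : ℝ) / d) ≤ ((3 : ℝ) ^ d) ^ ((1 : ℝ) / d) := by gcongr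
    _ = 3 := h3.symm

theorem final4 (hR : TaskRoot) (hP : TaskPack) (hX : TaskExt) (hCn : TaskConn) (hDe : TaskDesc)
    (hM : TaskMono) (hCt : TaskCount) :
    ∃ C : ℝ, 0 < C ∧ ∀ n : ℕ, 2 ≤ n → ∀ k : ℕ, k ≤ n → ∀ H : SimpleGraph (Fin k),
      ∀ p : ℝ, 0 ≤ p → ExpOK n k H p →
      (∀ D : ℕ, MaxDeg H D → ∀ α : ℝ, 0 ≤ α → p = (n : ℝ) ^ (-α) →
        ∀ q : ℝ, q = min 1 (C * (D : ℝ) ^ (min 1 α) * p * Real.log (n : ℝ)) →
        (1 / 2 : ℝ) ≤ Pr (EE n) q (Good n k H)) ∧
      (∀ D : ℕ, MaxDeg H D → ∀ F : H.Subgraph, 0 < F.edgeSet.ncard →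
        ∀ q : ℝ, q = min 1 (C * (D : ℝ) ^ (min 1 ((F.verts.ncard : ℝ) / F.edgeSet.ncard)) * p *
          Real.log (n : ℝ)) →
        (1 / 2 : ℝ) ≤ Pr (EE n) q (Good n k H)) ∧
      (∀ d : ℕ, (∀ v, (H.neighborSet v).ncard = d) →
        ∀ q : ℝ, q = min 1 (C * p * Real.log (n : ℝ)) →
        (1 / 2 : ℝ) ≤ Pr (EE n) q (Good n k H)) := by
  classical
  refine ⟨216000, by norm_num, ?_⟩
  intro n hn k hkn H p hp0 hE
  have hn1 : 1 ≤ n := by omega
  have hn2 : (2 : ℝ) ≤ n := by exact_mod_cast hn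
  have hn0 : (0 : ℝ) < n := by linarith
  have hn1r : (1 : ℝ) ≤ n := by linarith
  have hlog2 : 0.6931471803 < Real.log 2 := Real.log_two_gt_d9
  have hlogn : Real.log 2 ≤ Real.log n := Real.log_le_log (by norm_num) hn2
  have hlogpos : 0 < Real.log n := by linarith
  have hle1 : ∀ t : ℝ, min 1 t ≤ 1 := fun t => min_le_left _ _
  have hemb : Nonempty (Fin k ↪ Fin n) := ⟨(Fin.castLEEmb hkn)⟩
  obtain ⟨f0⟩ := hemb
  by_cases hbot : ∀ a b, ¬ H.Adj a b
  · -- no edges
    have hall : ∀ S : Finset (Fin n × Fin n), S ∈ Good n k H := fun S =>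
      ⟨f0, f0.injective, fun a b hab => absurd hab (hbot a b)⟩
    have hone : ∀ q : ℝ, (1 / 2 : ℝ) ≤ Pr (EE n) q (Good n k H) := by
      intro q
      have : Pr (EE n) q (Good n k H) = 1 := by
        rw [← sum_one (EE n) q]
        unfold Pr
        apply Finset.sum_congr rfl
        intro S _
        rw [Set.indicator_of_mem (hall S)]
      rw [this]
      norm_num
    exact ⟨fun _ _ _ _ _ q _ => hone q, fun _ _ _ _ q _ => hone q, fun _ _ q _ => hone q⟩
  · push Not at hbot
    obtain ⟨a0, b0, hab⟩ := hbot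
    -- p > 0
    have hppos : 0 < p := by
      rcases hp0.lt_or_eq with h | h
      · exact h
      · exfalso
        have h1 := hE ⊤
        have h2 : (⊤ : H.Subgraph).edgeSet.ncard ≠ 0 := by
          have h3 : 0 < (⊤ : H.Subgraph).edgeSet.ncard := by
            rw [Set.ncard_pos (Set.toFinite _)]
            exact ⟨s(a0, b0), by simpa using hab⟩
          omega
        rw [← h, zero_pow h2, mul_zero] at h1
        linarith
    have hdeg1 : 1 ≤ (H.neighborSet a0).ncard := by
      have h2 : 0 < (H.neighborSet a0).ncard := by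
        rw [Set.ncard_pos (Set.toFinite _)]
        exact ⟨b0, hab⟩
      omega
    have hdegk : ∀ v, (H.neighborSet v).ncard ≤ n := by
      intro v
      refine le_trans ?_ hkn
      calc (H.neighborSet v).ncard ≤ (Set.univ : Set (Fin k)).ncard :=
            Set.ncard_le_ncard (Set.subset_univ _) (Set.toFinite _)
        _ = k := by rw [Set.ncard_univ, Nat.card_eq_fintype_card, Fintype.card_fin]
    -- q = 1
    have Bone : ∀ t : ℝ, 1 ≤ t → ∀ q : ℝ, q = min 1 (216000 * t * p * Real.log (n : ℝ)) →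
        1 < p → (1 / 2 : ℝ) ≤ Pr (EE n) q (Good n k H) := by
      intro t ht q hq hp1
      have h1 : 1 ≤ 216000 * t * p * Real.log (n : ℝ) := by
        have h2 : (1 : ℝ) ≤ t * p := by nlinarith
        nlinarith
      rw [min_eq_left h1] at hq
      have hC1 : ∀ (V : Type) [Fintype V] (G : SimpleGraph V),
          ((Emb G H).ncard : ℝ) ≤ (n : ℝ) ^ (Fintype.card V) * (1 : ℝ) ^ (G.edgeSet.ncard) := by
        intro V _ G
        rw [one_pow, mul_one]
        have h3 : (Emb G H).ncard ≤ k ^ Fintype.card V := by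
          calc (Emb G H).ncard ≤ (Set.univ : Set (V → Fin k)).ncard :=
                Set.ncard_le_ncard (Set.subset_univ _) (Set.toFinite _)
            _ = k ^ Fintype.card V := by
                rw [Set.ncard_univ, Nat.card_eq_fintype_card, Fintype.card_fun, Fintype.card_fin]
        calc ((Emb G H).ncard : ℝ) ≤ ((k ^ Fintype.card V : ℕ) : ℝ) := by exact_mod_cast h3
          _ ≤ (n : ℝ) ^ (Fintype.card V) := by
              push_cast
              have : (k : ℝ) ≤ n := by exact_mod_cast hkn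
              gcongr
      exact core hX hDe hM hCt n hn k hkn H 1 one_pos hC1 q
        (by rw [hq]; exact min_le_left _ _) (by rw [hq])
    -- the exponent `γ ≥ min 1 α`
    have main : ∀ D : ℕ, MaxDeg H D → ∀ α : ℝ, 0 ≤ α → p = (n : ℝ) ^ (-α) → ∀ γ : ℝ,
        min 1 α ≤ γ → ∀ q : ℝ, min 1 (72000 * (D : ℝ) ^ γ * p * Real.log (n : ℝ)) ≤ q → q ≤ 1 →
        (1 / 2 : ℝ) ≤ Pr (EE n) q (Good n k H) := by
      intro D0 hD0 α hα hpα γ hγ q hq hq1
      have hp1 : p ≤ 1 := by
        rw [hpα]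
        exact Real.rpow_le_one_of_one_le_of_nonpos hn1r (by linarith)
      set D : ℕ := min D0 n with hDdef
      have hD : MaxDeg H D := fun v => le_min (hD0 v) (hdegk v)
      have hDn : D ≤ n := min_le_right _ _
      have hD1 : 1 ≤ D := hdeg1.trans (hD a0)
      have hDr : (1 : ℝ) ≤ D := by exact_mod_cast hD1
      have hDD0 : (D : ℝ) ≤ D0 := by exact_mod_cast (min_le_left _ _ : D ≤ D0)
      have hD0r : (1 : ℝ) ≤ D0 := hDr.trans hDD0
      have hc : ∀ (V : Type) [Fintype V] (G : SimpleGraph V), G.Connected →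
          ((Emb G H).ncard : ℝ) ≤
            (n : ℝ) ^ (Fintype.card V) * (12 * (D0 : ℝ) ^ γ * p) ^ (G.edgeSet.ncard) := by
        intro V _ G hG
        rcases le_total α 1 with h | h
        · rw [min_eq_right h] at hγ
          refine (alphaConn hR hP n k hn hkn H D hD1 hDn hD α hα p hpα hE V G hG).trans ?_
          have h3 : (D : ℝ) ^ α ≤ (D0 : ℝ) ^ γ := by
            calc (D : ℝ) ^ α ≤ (D0 : ℝ) ^ α := by gcongr
              _ ≤ (D0 : ℝ) ^ γ := Real.rpow_le_rpow_of_exponent_le hD0r hγ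
          gcongr
        · rw [min_eq_left h] at hγ
          refine (hCn V G hG n k H D p hn1 hkn hp0 hp1 hD hE).trans ?_
          have h3 : (D : ℝ) ≤ (D0 : ℝ) ^ γ := by
            calc (D : ℝ) ≤ (D0 : ℝ) := hDD0
              _ = (D0 : ℝ) ^ (1 : ℝ) := (Real.rpow_one _).symm
              _ ≤ (D0 : ℝ) ^ γ := Real.rpow_le_rpow_of_exponent_le hD0r hγ
          gcongr
      apply core hX hDe hM hCt n hn k hkn H (12 * (D0 : ℝ) ^ γ * p)
        (by have : (0 : ℝ) < (D0 : ℝ) ^ γ := Real.rpow_pos_of_pos (by linarith) _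
            positivity) ?_ q ?_ hq1
      · exact compGen n k H (12 * (D0 : ℝ) ^ γ * p) hc
      · refine le_trans (le_of_eq ?_) hq
        congr 1
        ring
    have halpha : p ≤ 1 → ∃ α : ℝ, 0 ≤ α ∧ p = (n : ℝ) ^ (-α) := by
      intro hp1
      refine ⟨-(Real.log p / Real.log n), ?_, ?_⟩
      · have : Real.log p ≤ 0 := Real.log_nonpos hp0 hp1
        have : Real.log p / Real.log n ≤ 0 := div_nonpos_of_nonpos_of_nonneg this hlogpos.le
        linarith
      · rw [neg_neg, Real.rpow_def_of_pos hn0, mul_div_cancel₀ _ hlogpos.ne', Real.exp_log hppos]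
    have sub : ∀ D : ℕ, MaxDeg H D → ∀ F : H.Subgraph, 0 < F.edgeSet.ncard →
        ∀ q : ℝ, min 1 (72000 * (D : ℝ) ^ (min 1 ((F.verts.ncard : ℝ) / F.edgeSet.ncard)) * p *
          Real.log (n : ℝ)) ≤ q → q ≤ 1 → p ≤ 1 →
        (1 / 2 : ℝ) ≤ Pr (EE n) q (Good n k H) := by
      intro D hD F hF q hq hq1 hp1
      obtain ⟨α, hα, hpα⟩ := halpha hp1
      exact main D hD α hα hpα _
        (min_le_min le_rfl (alpha_le n k hn H α p hpα hE F hF)) q hq hq1
    refine ⟨?_, ?_, ?_⟩
    · intro D hD α hα hpα q hq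
      apply main D hD α hα hpα _ le_rfl q _ (by rw [hq]; exact hle1 _)
      rw [hq]
      apply min_le_min le_rfl
      have : 0 ≤ (D : ℝ) ^ (min 1 α) * p * Real.log n := by positivity
      nlinarith
    · intro D hD F hF q hq
      have hD1 : (1 : ℝ) ≤ D := by exact_mod_cast hdeg1.trans (hD a0)
      rcases le_or_gt p 1 with hp1 | hp1
      · apply sub D hD F hF q _ (by rw [hq]; exact hle1 _) hp1
        rw [hq]
        apply min_le_min le_rfl
        have : 0 ≤ (D : ℝ) ^ (min 1 ((F.verts.ncard : ℝ) / F.edgeSet.ncard)) * p *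
          Real.log n := by positivity
        nlinarith
      · exact Bone _ (Real.one_le_rpow hD1 (le_min zero_le_one (by positivity))) q hq hp1
    · intro d hd q hq
      rcases le_or_gt p 1 with hp1 | hp1
      · have hd1 : 1 ≤ d := by
          rw [← hd a0]
          exact hdeg1
        have hd0 : (0 : ℝ) < d := by exact_mod_cast hd1
        have hdr : (1 : ℝ) ≤ d := by exact_mod_cast hd1
        have hF : 0 < (⊤ : H.Subgraph).edgeSet.ncard := by
          rw [Set.ncard_pos (Set.toFinite _)]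
          exact ⟨s(a0, b0), by simpa using hab⟩
        have hver : (⊤ : H.Subgraph).verts.ncard = k := by
          rw [SimpleGraph.Subgraph.verts_top, Set.ncard_univ, Nat.card_eq_fintype_card,
            Fintype.card_fin]
        have hedg : 2 * (⊤ : H.Subgraph).edgeSet.ncard = d * k := by
          rw [SimpleGraph.Subgraph.edgeSet_top, CompX.ncard_eq,
            Finset.sum_congr rfl (fun y _ => hd y), Finset.sum_const, Finset.card_univ,
            smul_eq_mul, Fintype.card_fin, mul_comm]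
        have hk1 : (0 : ℝ) < k := by
          have : 1 ≤ k := by have := a0.2; omega
          exact_mod_cast this
        have hquot : (((⊤ : H.Subgraph).verts.ncard : ℕ) : ℝ) /
            (((⊤ : H.Subgraph).edgeSet.ncard : ℕ) : ℝ) = 2 / d := by
          have hedg' : 2 * (((⊤ : H.Subgraph).edgeSet.ncard : ℕ) : ℝ) = d * k := by
            exact_mod_cast hedg
          have hF' : (0 : ℝ) < (((⊤ : H.Subgraph).edgeSet.ncard : ℕ) : ℝ) := by exact_mod_cast hF
          rw [hver, div_eq_div_iff hF'.ne' hd0.ne']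
          linarith
        have hfac : (d : ℝ) ^ (min 1 ((((⊤ : H.Subgraph).verts.ncard : ℕ) : ℝ) /
            (((⊤ : H.Subgraph).edgeSet.ncard : ℕ) : ℝ))) ≤ 3 := by
          calc _ ≤ (d : ℝ) ^ ((((⊤ : H.Subgraph).verts.ncard : ℕ) : ℝ) /
                (((⊤ : H.Subgraph).edgeSet.ncard : ℕ) : ℝ)) :=
                Real.rpow_le_rpow_of_exponent_le hdr (min_le_right _ _)
            _ = (d : ℝ) ^ ((2 : ℝ) / d) := by rw [hquot]
            _ ≤ 3 := reg_factor d hd1
        apply sub d (fun v => (hd v).le) ⊤ hF q _ (by rw [hq]; exact hle1 _) hp1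
        rw [hq]
        apply min_le_min le_rfl
        have h5 : 0 < p * Real.log n := by positivity
        calc 72000 * (d : ℝ) ^ (min 1 ((((⊤ : H.Subgraph).verts.ncard : ℕ) : ℝ) /
            (((⊤ : H.Subgraph).edgeSet.ncard : ℕ) : ℝ))) * p * Real.log n
            ≤ 72000 * 3 * p * Real.log n := by gcongr
          _ = 216000 * p * Real.log n := by ring
      · exact Bone 1 le_rfl q (by rw [hq, mul_one]) hp1

end Pool.Agent.H942R3.KK
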