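import Pool.Agent.H942R3.KK.Final4

set_option autoImplicit false

/-! KK project (helper942): the versions with `log |V(H)|`. -/

namespace Pool.Agent.H942R3.KK

open Finset H560R2

lemma EF_card_ltk (n k : ℕ) (H : SimpleGraph (Fin k)) (f : Fin k ↪ Fin n) :
    (EF H f).card < 2 ^ (2 * (Nat.log 2 k + 1)) := by
  classical
  have h1 : (EF H f).card ≤ k * k := by
    have hsub : EF H f ⊆ (univ : Finset (Fin k × Fin k)).image (fun z => (f z.1, f z.2)) := by
      intro e he
      simp only [EF, Finset.mem_filter, Finset.mem_univ, true_and] at he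
      obtain ⟨_, a, b, _, ha, hb⟩ := he
      rw [Finset.mem_image]
      exact ⟨(a, b), mem_univ _, Prod.ext ha hb⟩
    calc (EF H f).card ≤ _ := Finset.card_le_card hsub
      _ ≤ (univ : Finset (Fin k × Fin k)).card := Finset.card_image_le
      _ = k * k := by simp
  have h2 : k < 2 ^ (Nat.log 2 k + 1) := Nat.lt_pow_succ_log_self (by norm_num) k
  calc (EF H f).card ≤ k * k := h1
    _ < 2 ^ (Nat.log 2 k + 1) * 2 ^ (Nat.log 2 k + 1) := by
        apply Nat.mul_lt_mul'' h2 h2
    _ = _ := by rw [← pow_add]; congr 1; ring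

theorem corek (hX : TaskExt) (hDe : TaskDesc) (hM : TaskMono) (hCt : TaskCount)
    (n k : ℕ) (hk : 2 ≤ k) (hkn : k ≤ n) (H : SimpleGraph (Fin k)) (x : ℝ) (hxpos : 0 < x)
    (hC : ∀ (V : Type) [Fintype V] (G : SimpleGraph V),
      ((Emb G H).ncard : ℝ) ≤ (n : ℝ) ^ (Fintype.card V) * x ^ (G.edgeSet.ncard))
    (q : ℝ) (hq : min 1 (6000 * x * Real.log (k : ℝ)) ≤ q) (hq1 : q ≤ 1) :
      (1 / 2 : ℝ) ≤ Pr (EE n) q (Good n k H) := by
  classical
  have hn2 : (2 : ℝ) ≤ k := by exact_mod_cast hk
  have hlog2 : 0.6931471803 < Real.log 2 := Real.log_two_gt_d9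
  have hlogn : Real.log 2 ≤ Real.log k := Real.log_le_log (by norm_num) hn2
  have hlogpos : 0 < Real.log k := by linarith
  have hq0 : 0 ≤ q := by
    refine le_trans ?_ hq
    exact le_min zero_le_one (by positivity)
  -- some embedding
  have hemb : Nonempty (Fin k ↪ Fin n) := ⟨(Fin.castLEEmb hkn)⟩
  obtain ⟨f0⟩ := hemb
  by_cases hbig : 1 ≤ 6000 * x * Real.log (k : ℝ)
  · -- q = 1
    have hq' : q = 1 := by
      rw [min_eq_left hbig] at hq
      linarith
    have hEgood : EE n ∈ Good n k H := by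
      refine ⟨f0, f0.injective, fun a b _ hl => ?_⟩
      simp only [EE, mem_filter, mem_univ, true_and]
      exact hl
    have h1 : (1 : ℝ) ≤ Pr (EE n) q (Good n k H) := by
      unfold Pr
      have hterm : (Good n k H).indicator
          (fun T : Finset (Fin n × Fin n) => q ^ T.card * (1 - q) ^ ((EE n).card - T.card))
          (EE n) = 1 := by
        rw [Set.indicator_of_mem hEgood, hq']
        simp
      refine le_trans (le_of_eq hterm.symm) ?_
      apply Finset.single_le_sum (f := fun S => (Good n k H).indicator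
          (fun T : Finset (Fin n × Fin n) => q ^ T.card * (1 - q) ^ ((EE n).card - T.card)) S)
      · intro S _
        apply Set.indicator_nonneg
        intro T _
        have : 0 ≤ 1 - q := by linarith
        positivity
      · exact Finset.mem_powerset_self _
    linarith
  · push Not at hbig
    have hxs : x * 4158 < 1 := by
      have h2 : x * 4158 ≤ 6000 * x * Real.log k := by
        have : (4158 : ℝ) ≤ 6000 * Real.log k := by linarith
        nlinarith
      linarith
    set y : ℝ := 1 / (7.5 * x) with hy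
    have hyx : y * (7.5 * x) = 1 := by rw [hy]; field_simp
    have hy128 : 128 ≤ y := by
      rw [hy, le_div_iff₀ (by positivity)]
      linarith
    set r : ℕ := ⌊y⌋₊ with hr
    have hry : (r : ℝ) ≤ y := Nat.floor_le (by positivity)
    have hyr : y < r + 1 := Nat.lt_floor_add_one y
    set Q : ℕ := r / 64 with hQ
    have hr127 : 127 ≤ r := by
      have h : (127 : ℝ) ≤ r := by linarith
      exact_mod_cast h
    have hQ1 : 1 ≤ Q := by omega
    have hQy : y / 128 ≤ Q := by
      have h1 : r < 64 * (Q + 1) := by omega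
      have h2 : (r : ℝ) + 1 ≤ 64 * ((Q : ℝ) + 1) := by exact_mod_cast h1
      have h3 : y < 64 * ((Q : ℝ) + 1) := by linarith
      linarith
    have : NeZero Q := ⟨by omega⟩
    set J : ℕ := 2 * (Nat.log 2 k + 1) with hJ
    have hspread := spreadGen hX hDe n k hkn H x hxpos.le hC r (by
      calc (r : ℝ) * (7.5 * x) ≤ y * (7.5 * x) := by gcongr
        _ = 1 := hyx)
    have hph := phase (Q := Q) J r (by omega) (univ : Finset (Fin k ↪ Fin n)) (fun f => EF H f)
      (univ : Finset (Fin k ↪ Fin n)).card (fun f _ => EF_card_ltk n k H f) hspread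
    have hIpos : (0 : ℚ) < ((univ : Finset (Fin k ↪ Fin n)).card : ℚ) := by
      have : 0 < (univ : Finset (Fin k ↪ Fin n)).card := Finset.card_pos.mpr ⟨f0, mem_univ _⟩
      exact_mod_cast this
    have hfail : (failJ Q J (univ : Finset (Fin k ↪ Fin n)) (fun f => EF H f)).card * 4 ≤
        (Q ^ Fintype.card (Fin n × Fin n)) ^ J := by
      have h1 : ((failJ Q J (univ : Finset (Fin k ↪ Fin n)) (fun f => EF H f)).card : ℚ) ≤
          cJ J * ((Q : ℚ) ^ (Fintype.card (Fin n × Fin n))) ^ J := by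
        refine le_of_mul_le_mul_right ?_ hIpos
        calc _ ≤ _ := hph
          _ = _ := by ring
      have h2 := h1.trans (mul_le_mul_of_nonneg_right (cJ_le J) (by positivity))
      have h3 : ((failJ Q J (univ : Finset (Fin k ↪ Fin n)) (fun f => EF H f)).card : ℚ) * 4 ≤
          ((Q : ℚ) ^ (Fintype.card (Fin n × Fin n))) ^ J := by linarith
      exact_mod_cast h3
    have hsub : (univ : Finset (Fin J → Fin n × Fin n → Fin Q)).filter
        (fun ω => WJ ω ∉ Good n k H) ⊆
        failJ Q J (univ : Finset (Fin k ↪ Fin n)) (fun f => EF H f) := by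
      intro ω hω
      rw [Finset.mem_filter] at hω
      rw [mem_failJ]
      intro f _ hf
      exact hω.2 (good_of_EF n k H f _ hf)
    have hcnt := hCt (Fin n × Fin n) Q J (EE n) (Good n k H) (good_inter n k H) (by
      have h1 := Finset.card_le_card hsub
      have h2 : ((univ : Finset (Fin J → Fin n × Fin n → Fin Q)).filter
        (fun ω => WJ ω ∉ Good n k H)).card * 4 ≤ (Q ^ Fintype.card (Fin n × Fin n)) ^ J :=
        le_trans (Nat.mul_le_mul_right 4 h1) hfail
      exact_mod_cast h2)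
    -- compare the densities
    have hQr : (1 : ℝ) ≤ Q := by exact_mod_cast hQ1
    have hinv : 1 / (Q : ℝ) ≤ 960 * x := by
      rw [div_le_iff₀ (by linarith)]
      have h1 : 960 * x * (y / 128) = 1 := by
        have : 960 * x * (y / 128) = y * (7.5 * x) := by ring
        rw [this, hyx]
      calc (1 : ℝ) = 960 * x * (y / 128) := h1.symm
        _ ≤ 960 * x * Q := by gcongr
    have hJle : (J : ℝ) ≤ 6 * Real.log k := by
      have h1 : (Nat.log 2 k : ℝ) * Real.log 2 ≤ Real.log k := by
        have h2 : (2 : ℝ) ^ (Nat.log 2 k) ≤ k := by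
          exact_mod_cast Nat.pow_log_le_self 2 (by omega)
        have h3 := Real.log_le_log (by positivity) h2
        rwa [Real.log_pow] at h3
      have h4 : (J : ℝ) = 2 * ((Nat.log 2 k : ℝ) + 1) := by rw [hJ]; push_cast; ring
      rw [h4]
      have h5 : (2 * ((Nat.log 2 k : ℝ) + 1)) * Real.log 2 ≤ 4 * Real.log k := by nlinarith
      have h6 : 0 ≤ (Nat.log 2 k : ℝ) := by positivity
      nlinarith
    set q0 : ℝ := 1 - (1 - 1 / (Q : ℝ)) ^ J with hq0def
    have hQinv1 : 1 / (Q : ℝ) ≤ 1 := by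
      rw [div_le_one (by linarith)]
      exact hQr
    have hQinv0 : 0 ≤ 1 / (Q : ℝ) := by positivity
    have hpow1 : (1 - 1 / (Q : ℝ)) ^ J ≤ 1 := pow_le_one₀ (by linarith) (by linarith)
    have hpow0 : 0 ≤ (1 - 1 / (Q : ℝ)) ^ J := pow_nonneg (by linarith) _
    have hbern : 1 - (J : ℝ) * (1 / Q) ≤ (1 - 1 / (Q : ℝ)) ^ J := by
      have := one_add_mul_le_pow (a := -(1 / (Q : ℝ))) (by linarith) J
      calc 1 - (J : ℝ) * (1 / Q) = 1 + (J : ℝ) * -(1 / (Q : ℝ)) := by ring
        _ ≤ (1 + -(1 / (Q : ℝ))) ^ J := this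
        _ = _ := by ring_nf
    have hq0le : q0 ≤ q := by
      refine le_trans ?_ hq
      rw [le_min_iff]
      refine ⟨by rw [hq0def]; linarith, ?_⟩
      calc q0 ≤ (J : ℝ) * (1 / Q) := by rw [hq0def]; linarith
        _ ≤ (6 * Real.log k) * (960 * x) := by gcongr
        _ ≤ 6000 * x * Real.log k := by
            nlinarith [mul_pos hxpos hlogpos]
    have hmono := hM (Fin n × Fin n) (EE n) (Good n k H) (good_mono n k H) q0 q
      (by rw [hq0def]; linarith) hq0le hq1
    linarith


theorem final5 (hR : TaskRoot) (hP : TaskPack) (hX : TaskExt) (hCn : TaskConn) (hDe : TaskDesc)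
    (hM : TaskMono) (hCt : TaskCount) :
    ∃ C : ℝ, 0 < C ∧ ∀ n k : ℕ, 2 ≤ k → k ≤ n → ∀ H : SimpleGraph (Fin k),
      ∀ p : ℝ, 0 ≤ p → ExpOK n k H p →
      (∀ D : ℕ, MaxDeg H D → ∀ α : ℝ, 0 ≤ α → p = (n : ℝ) ^ (-α) →
        ∀ q : ℝ, q = min 1 (C * (D : ℝ) ^ (min 1 α) * p * Real.log (k : ℝ)) →
        (1 / 2 : ℝ) ≤ Pr (EE n) q (Good n k H)) ∧
      (∀ D : ℕ, MaxDeg H D → ∀ F : H.Subgraph, 0 < F.edgeSet.ncard →
        ∀ q : ℝ, q = min 1 (C * (D : ℝ) ^ (min 1 ((F.verts.ncard : ℝ) / F.edgeSet.ncard)) * p *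
          Real.log (k : ℝ)) →
        (1 / 2 : ℝ) ≤ Pr (EE n) q (Good n k H)) ∧
      (∀ d : ℕ, (∀ v, (H.neighborSet v).ncard = d) →
        ∀ q : ℝ, q = min 1 (C * p * Real.log (k : ℝ)) →
        (1 / 2 : ℝ) ≤ Pr (EE n) q (Good n k H)) := by
  classical
  refine ⟨216000, by norm_num, ?_⟩
  intro n k hk hkn H p hp0 hE
  have hn : 2 ≤ n := hk.trans hkn
  have hn1 : 1 ≤ n := by omega
  have hn2 : (2 : ℝ) ≤ n := by exact_mod_cast hn
  have hk2 : (2 : ℝ) ≤ k := by exact_mod_cast hk
  have hn0 : (0 : ℝ) < n := by linarith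
  have hn1r : (1 : ℝ) ≤ n := by linarith
  have hlog2 : 0.6931471803 < Real.log 2 := Real.log_two_gt_d9
  have hlogN : 0 < Real.log n := Real.log_pos (by linarith)
  have hlogn : Real.log 2 ≤ Real.log k := Real.log_le_log (by norm_num) hk2
  have hlogpos : 0 < Real.log k := by linarith
  have hle1 : ∀ t : ℝ, min 1 t ≤ 1 := fun t => min_le_left _ _
  have hemb : Nonempty (Fin k ↪ Fin n) := ⟨(Fin.castLEEmb hkn)⟩
  obtain ⟨f0⟩ := hemb
  by_cases hbot : ∀ a b, ¬ H.Adj a b
  · -- no edges
    have hall : ∀ S : Finset (Fin n × Fin n), S ∈ Good n k H := fun S =>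
      ⟨f0, f0.injective, fun a b hab => absurd hab (hbot a b)⟩
    have hone : ∀ q : ℝ, (1 / 2 : ℝ) ≤ Pr (EE n) q (Good n k H) := by
      intro q
      have : Pr (EE n) q (Good n k H) = 1 := by
        rw [← sum_one (EE n) q]
        unfold Pr
        apply Finset.sum_congr rfl
        intro S _
        rw [Set.indicator_of_mem (hall S)]
      rw [this]
      norm_num
    exact ⟨fun _ _ _ _ _ q _ => hone q, fun _ _ _ _ q _ => hone q, fun _ _ q _ => hone q⟩
  · push Not at hbot
    obtain ⟨a0, b0, hab⟩ := hbot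
    -- p > 0
    have hppos : 0 < p := by
      rcases hp0.lt_or_eq with h | h
      · exact h
      · exfalso
        have h1 := hE ⊤
        have h2 : (⊤ : H.Subgraph).edgeSet.ncard ≠ 0 := by
          have h3 : 0 < (⊤ : H.Subgraph).edgeSet.ncard := by
            rw [Set.ncard_pos (Set.toFinite _)]
            exact ⟨s(a0, b0), by simpa using hab⟩
          omega
        rw [← h, zero_pow h2, mul_zero] at h1
        linarith
    have hdeg1 : 1 ≤ (H.neighborSet a0).ncard := by
      have h2 : 0 < (H.neighborSet a0).ncard := by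
        rw [Set.ncard_pos (Set.toFinite _)]
        exact ⟨b0, hab⟩
      omega
    have hdegk : ∀ v, (H.neighborSet v).ncard ≤ n := by
      intro v
      refine le_trans ?_ hkn
      calc (H.neighborSet v).ncard ≤ (Set.univ : Set (Fin k)).ncard :=
            Set.ncard_le_ncard (Set.subset_univ _) (Set.toFinite _)
        _ = k := by rw [Set.ncard_univ, Nat.card_eq_fintype_card, Fintype.card_fin]
    -- q = 1
    have Bone : ∀ t : ℝ, 1 ≤ t → ∀ q : ℝ, q = min 1 (216000 * t * p * Real.log (k : ℝ)) →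
        1 < p → (1 / 2 : ℝ) ≤ Pr (EE n) q (Good n k H) := by
      intro t ht q hq hp1
      have h1 : 1 ≤ 216000 * t * p * Real.log (k : ℝ) := by
        have h2 : (1 : ℝ) ≤ t * p := by nlinarith
        nlinarith
      rw [min_eq_left h1] at hq
      have hC1 : ∀ (V : Type) [Fintype V] (G : SimpleGraph V),
          ((Emb G H).ncard : ℝ) ≤ (n : ℝ) ^ (Fintype.card V) * (1 : ℝ) ^ (G.edgeSet.ncard) := by
        intro V _ G
        rw [one_pow, mul_one]
        have h3 : (Emb G H).ncard ≤ k ^ Fintype.card V := by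
          calc (Emb G H).ncard ≤ (Set.univ : Set (V → Fin k)).ncard :=
                Set.ncard_le_ncard (Set.subset_univ _) (Set.toFinite _)
            _ = k ^ Fintype.card V := by
                rw [Set.ncard_univ, Nat.card_eq_fintype_card, Fintype.card_fun, Fintype.card_fin]
        calc ((Emb G H).ncard : ℝ) ≤ ((k ^ Fintype.card V : ℕ) : ℝ) := by exact_mod_cast h3
          _ ≤ (n : ℝ) ^ (Fintype.card V) := by
              push_cast
              have : (k : ℝ) ≤ n := by exact_mod_cast hkn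
              gcongr
      exact corek hX hDe hM hCt n k hk hkn H 1 one_pos hC1 q
        (by rw [hq]; exact min_le_left _ _) (by rw [hq])
    -- the exponent `γ ≥ min 1 α`
    have main : ∀ D : ℕ, MaxDeg H D → ∀ α : ℝ, 0 ≤ α → p = (n : ℝ) ^ (-α) → ∀ γ : ℝ,
        min 1 α ≤ γ → ∀ q : ℝ, min 1 (72000 * (D : ℝ) ^ γ * p * Real.log (k : ℝ)) ≤ q → q ≤ 1 →
        (1 / 2 : ℝ) ≤ Pr (EE n) q (Good n k H) := by
      intro D0 hD0 α hα hpα γ hγ q hq hq1
      have hp1 : p ≤ 1 := by
        rw [hpα]
        exact Real.rpow_le_one_of_one_le_of_nonpos hn1r (by linarith)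
      set D : ℕ := min D0 n with hDdef
      have hD : MaxDeg H D := fun v => le_min (hD0 v) (hdegk v)
      have hDn : D ≤ n := min_le_right _ _
      have hD1 : 1 ≤ D := hdeg1.trans (hD a0)
      have hDr : (1 : ℝ) ≤ D := by exact_mod_cast hD1
      have hDD0 : (D : ℝ) ≤ D0 := by exact_mod_cast (min_le_left _ _ : D ≤ D0)
      have hD0r : (1 : ℝ) ≤ D0 := hDr.trans hDD0
      have hc : ∀ (V : Type) [Fintype V] (G : SimpleGraph V), G.Connected →
          ((Emb G H).ncard : ℝ) ≤
            (n : ℝ) ^ (Fintype.card V) * (12 * (D0 : ℝ) ^ γ * p) ^ (G.edgeSet.ncard) := by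
        intro V _ G hG
        rcases le_total α 1 with h | h
        · rw [min_eq_right h] at hγ
          refine (alphaConn hR hP n k hn hkn H D hD1 hDn hD α hα p hpα hE V G hG).trans ?_
          have h3 : (D : ℝ) ^ α ≤ (D0 : ℝ) ^ γ := by
            calc (D : ℝ) ^ α ≤ (D0 : ℝ) ^ α := by gcongr
              _ ≤ (D0 : ℝ) ^ γ := Real.rpow_le_rpow_of_exponent_le hD0r hγ
          gcongr
        · rw [min_eq_left h] at hγ
          refine (hCn V G hG n k H D p hn1 hkn hp0 hp1 hD hE).trans ?_
          have h3 : (D : ℝ) ≤ (D0 : ℝ) ^ γ := by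
            calc (D : ℝ) ≤ (D0 : ℝ) := hDD0
              _ = (D0 : ℝ) ^ (1 : ℝ) := (Real.rpow_one _).symm
              _ ≤ (D0 : ℝ) ^ γ := Real.rpow_le_rpow_of_exponent_le hD0r hγ
          gcongr
      apply corek hX hDe hM hCt n k hk hkn H (12 * (D0 : ℝ) ^ γ * p)
        (by have : (0 : ℝ) < (D0 : ℝ) ^ γ := Real.rpow_pos_of_pos (by linarith) _
            positivity) ?_ q ?_ hq1
      · exact compGen n k H (12 * (D0 : ℝ) ^ γ * p) hc
      · refine le_trans (le_of_eq ?_) hq
        congr 1
        ring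
    have halpha : p ≤ 1 → ∃ α : ℝ, 0 ≤ α ∧ p = (n : ℝ) ^ (-α) := by
      intro hp1
      refine ⟨-(Real.log p / Real.log n), ?_, ?_⟩
      · have : Real.log p ≤ 0 := Real.log_nonpos hp0 hp1
        have : Real.log p / Real.log n ≤ 0 := div_nonpos_of_nonpos_of_nonneg this hlogN.le
        linarith
      · rw [neg_neg, Real.rpow_def_of_pos hn0, mul_div_cancel₀ _ hlogN.ne', Real.exp_log hppos]
    have sub : ∀ D : ℕ, MaxDeg H D → ∀ F : H.Subgraph, 0 < F.edgeSet.ncard →
        ∀ q : ℝ, min 1 (72000 * (D : ℝ) ^ (min 1 ((F.verts.ncard : ℝ) / F.edgeSet.ncard)) * p *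
          Real.log (k : ℝ)) ≤ q → q ≤ 1 → p ≤ 1 →
        (1 / 2 : ℝ) ≤ Pr (EE n) q (Good n k H) := by
      intro D hD F hF q hq hq1 hp1
      obtain ⟨α, hα, hpα⟩ := halpha hp1
      exact main D hD α hα hpα _
        (min_le_min le_rfl (alpha_le n k hn H α p hpα hE F hF)) q hq hq1
    refine ⟨?_, ?_, ?_⟩
    · intro D hD α hα hpα q hq
      apply main D hD α hα hpα _ le_rfl q _ (by rw [hq]; exact hle1 _)
      rw [hq]
      apply min_le_min le_rfl
      have : 0 ≤ (D : ℝ) ^ (min 1 α) * p * Real.log k := by positivity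
      nlinarith
    · intro D hD F hF q hq
      have hD1 : (1 : ℝ) ≤ D := by exact_mod_cast hdeg1.trans (hD a0)
      rcases le_or_gt p 1 with hp1 | hp1
      · apply sub D hD F hF q _ (by rw [hq]; exact hle1 _) hp1
        rw [hq]
        apply min_le_min le_rfl
        have : 0 ≤ (D : ℝ) ^ (min 1 ((F.verts.ncard : ℝ) / F.edgeSet.ncard)) * p *
          Real.log k := by positivity
        nlinarith
      · exact Bone _ (Real.one_le_rpow hD1 (le_min zero_le_one (by positivity))) q hq hp1
    · intro d hd q hq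
      rcases le_or_gt p 1 with hp1 | hp1
      · have hd1 : 1 ≤ d := by
          rw [← hd a0]
          exact hdeg1
        have hd0 : (0 : ℝ) < d := by exact_mod_cast hd1
        have hdr : (1 : ℝ) ≤ d := by exact_mod_cast hd1
        have hF : 0 < (⊤ : H.Subgraph).edgeSet.ncard := by
          rw [Set.ncard_pos (Set.toFinite _)]
          exact ⟨s(a0, b0), by simpa using hab⟩
        have hver : (⊤ : H.Subgraph).verts.ncard = k := by
          rw [SimpleGraph.Subgraph.verts_top, Set.ncard_univ, Nat.card_eq_fintype_card,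
            Fintype.card_fin]
        have hedg : 2 * (⊤ : H.Subgraph).edgeSet.ncard = d * k := by
          rw [SimpleGraph.Subgraph.edgeSet_top, CompX.ncard_eq,
            Finset.sum_congr rfl (fun y _ => hd y), Finset.sum_const, Finset.card_univ,
            smul_eq_mul, Fintype.card_fin, mul_comm]
        have hk1 : (0 : ℝ) < k := by
          have : 1 ≤ k := by have := a0.2; omega
          exact_mod_cast this
        have hquot : (((⊤ : H.Subgraph).verts.ncard : ℕ) : ℝ) /
            (((⊤ : H.Subgraph).edgeSet.ncard : ℕ) : ℝ) = 2 / d := by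
          have hedg' : 2 * (((⊤ : H.Subgraph).edgeSet.ncard : ℕ) : ℝ) = d * k := by
            exact_mod_cast hedg
          have hF' : (0 : ℝ) < (((⊤ : H.Subgraph).edgeSet.ncard : ℕ) : ℝ) := by exact_mod_cast hF
          rw [hver, div_eq_div_iff hF'.ne' hd0.ne']
          linarith
        have hfac : (d : ℝ) ^ (min 1 ((((⊤ : H.Subgraph).verts.ncard : ℕ) : ℝ) /
            (((⊤ : H.Subgraph).edgeSet.ncard : ℕ) : ℝ))) ≤ 3 := by
          calc _ ≤ (d : ℝ) ^ ((((⊤ : H.Subgraph).verts.ncard : ℕ) : ℝ) /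
                (((⊤ : H.Subgraph).edgeSet.ncard : ℕ) : ℝ)) :=
                Real.rpow_le_rpow_of_exponent_le hdr (min_le_right _ _)
            _ = (d : ℝ) ^ ((2 : ℝ) / d) := by rw [hquot]
            _ ≤ 3 := reg_factor d hd1
        apply sub d (fun v => (hd v).le) ⊤ hF q _ (by rw [hq]; exact hle1 _) hp1
        rw [hq]
        apply min_le_min le_rfl
        have h5 : 0 < p * Real.log k := by positivity
        calc 72000 * (d : ℝ) ^ (min 1 ((((⊤ : H.Subgraph).verts.ncard : ℕ) : ℝ) /
            (((⊤ : H.Subgraph).edgeSet.ncard : ℕ) : ℝ))) * p * Real.log k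
            ≤ 72000 * 3 * p * Real.log k := by gcongr
          _ = 216000 * p * Real.log k := by ring
      · exact Bone 1 le_rfl q (by rw [hq, mul_one]) hp1

end Pool.Agent.H942R3.KK
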