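import Pool.Agent.H942R3.KK.Stmts

/-! TaskMono of the project H942-KK, by helper872. -/

set_option autoImplicit false

namespace Pool.Agent.H942R3.KK

open Finset

theorem Pr_insert {ι : Type} [DecidableEq ι] {E : Finset ι} {e : ι} (he : e ∉ E) (q : ℝ)
    (A : Set (Finset ι)) :
    Pr (insert e E) q A = (1 - q) * Pr E q A + q * Pr E q {S | insert e S ∈ A} := by
  classical
  unfold Pr
  rw [Finset.sum_powerset_insert he, Finset.mul_sum, Finset.mul_sum]
  congr 1
  · refine Finset.sum_congr rfl fun S hS => ?_
    rw [Finset.mem_powerset] at hS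
    have hc : S.card ≤ E.card := Finset.card_le_card hS
    by_cases hA : S ∈ A
    · rw [Set.indicator_of_mem hA, Set.indicator_of_mem hA, Finset.card_insert_of_notMem he,
        show E.card + 1 - S.card = (E.card - S.card) + 1 by omega, pow_succ]
      ring
    · rw [Set.indicator_of_notMem hA, Set.indicator_of_notMem hA, mul_zero]
  · refine Finset.sum_congr rfl fun S hS => ?_
    rw [Finset.mem_powerset] at hS
    have hc : S.card ≤ E.card := Finset.card_le_card hS
    have heS : e ∉ S := fun h => he (hS h)
    by_cases hA : insert e S ∈ A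
    · have hA' : S ∈ {S : Finset ι | insert e S ∈ A} := hA
      rw [Set.indicator_of_mem hA, Set.indicator_of_mem hA', Finset.card_insert_of_notMem he,
        Finset.card_insert_of_notMem heS,
        show E.card + 1 - (S.card + 1) = E.card - S.card by omega, pow_succ]
      ring
    · have hA' : S ∉ {S : Finset ι | insert e S ∈ A} := hA
      rw [Set.indicator_of_notMem hA, Set.indicator_of_notMem hA', mul_zero]

theorem Pr_mono_family {ι : Type} [DecidableEq ι] (E : Finset ι) {q : ℝ} (h0 : 0 ≤ q)
    (h1 : q ≤ 1) {A B : Set (Finset ι)} (h : A ⊆ B) : Pr E q A ≤ Pr E q B := by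
  unfold Pr
  refine Finset.sum_le_sum fun S _ => ?_
  refine Set.indicator_le_indicator_of_subset h (fun T => ?_) S
  have : 0 ≤ 1 - q := by linarith
  positivity

theorem taskMono : TaskMono := by
  intro ι _ E
  induction E using Finset.induction_on with
  | empty =>
    intro A _ q q' _ _ _
    unfold Pr
    by_cases h : (∅ : Finset ι) ∈ A
    · simp [Set.indicator_of_mem h]
    · simp [Set.indicator_of_notMem h]
  | insert e E he ih =>
    intro A hA q q' h0 hq h1
    rw [Pr_insert he, Pr_insert he]
    have hup : ∀ S T : Finset ι, S ⊆ T → S ∈ {S : Finset ι | insert e S ∈ A} →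
        T ∈ {S : Finset ι | insert e S ∈ A} := fun S T hST hS =>
      hA _ _ (Finset.insert_subset_insert e hST) hS
    have hsub : A ⊆ {S : Finset ι | insert e S ∈ A} := fun S hS =>
      hA _ _ (Finset.subset_insert e S) hS
    have h2 := ih A hA q q' h0 hq h1
    have h3 := ih _ hup q q' h0 hq h1
    have h4 := Pr_mono_family E h0 (hq.trans h1) hsub
    have h5 : (1 - q') * Pr E q A ≤ (1 - q') * Pr E q' A :=
      mul_le_mul_of_nonneg_left h2 (by linarith)
    have h6 : q' * Pr E q {S | insert e S ∈ A} ≤ q' * Pr E q' {S | insert e S ∈ A} :=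
      mul_le_mul_of_nonneg_left h3 (h0.trans hq)
    have h7 : 0 ≤ (q' - q) * (Pr E q {S | insert e S ∈ A} - Pr E q A) :=
      mul_nonneg (by linarith) (by linarith)
    linarith

end Pool.Agent.H942R3.KK
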