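import Pool.Agent.H942R3.KK.Stmts

/-! KK project, TaskPack (helper510). -/

set_option autoImplicit false

namespace Pool.Agent.H942R3.KK

open Finset

namespace PackX

variable {V : Type} {k : ℕ} {G : SimpleGraph V} {H : SimpleGraph (Fin k)}

/-- the union of the copies -/
def sub (G : SimpleGraph V) (H : SimpleGraph (Fin k)) (M : Finset (V → Fin k))
    (hM : ∀ g ∈ M, g ∈ Emb G H) : H.Subgraph where
  verts := {a | ∃ g ∈ M, ∃ x, g x = a}
  Adj a b := ∃ g ∈ M, ∃ x y, G.Adj x y ∧ g x = a ∧ g y = b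
  adj_sub := by
    rintro a b ⟨g, hg, x, y, hxy, rfl, rfl⟩
    exact (hM g hg).2 x y hxy
  edge_vert := by
    rintro a b ⟨g, hg, x, y, hxy, rfl, rfl⟩
    exact ⟨g, hg, x, rfl⟩
  symm := ⟨by
    rintro a b ⟨g, hg, x, y, hxy, rfl, rfl⟩
    exact ⟨g, hg, y, x, hxy.symm, rfl, rfl⟩⟩

theorem pair_inj {M : Finset (V → Fin k)} (hM : ∀ g ∈ M, g ∈ Emb G H)
    (hd : ∀ g ∈ M, ∀ g' ∈ M, g ≠ g' → ∀ x y, g x ≠ g' y) {g g' : V → Fin k} (hg : g ∈ M)
    (hg' : g' ∈ M) {x y : V} (h : g x = g' y) : g = g' ∧ x = y := by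
  have h1 : g = g' := by
    by_contra hne
    exact hd g hg g' hg' hne x y h
  subst h1
  exact ⟨rfl, (hM g hg).1 h⟩

/-- vertices of the union as pairs -/
noncomputable def eqv (M : Finset (V → Fin k)) (hM : ∀ g ∈ M, g ∈ Emb G H)
    (hd : ∀ g ∈ M, ∀ g' ∈ M, g ≠ g' → ∀ x y, g x ≠ g' y) :
    (M × V) ≃ (sub G H M hM).verts :=
  Equiv.ofBijective (fun q => ⟨q.1.1 q.2, q.1.1, q.1.2, q.2, rfl⟩) (by
    constructor
    · rintro ⟨⟨g, hg⟩, x⟩ ⟨⟨g', hg'⟩, y⟩ h
      have h1 : g x = g' y := congrArg Subtype.val h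
      obtain ⟨h2, h3⟩ := pair_inj hM hd hg hg' h1
      subst h2
      subst h3
      rfl
    · rintro ⟨a, g, hg, x, rfl⟩
      exact ⟨(⟨g, hg⟩, x), rfl⟩)

theorem adj_iff (M : Finset (V → Fin k)) (hM : ∀ g ∈ M, g ∈ Emb G H)
    (hd : ∀ g ∈ M, ∀ g' ∈ M, g ≠ g' → ∀ x y, g x ≠ g' y) (q q' : M × V) :
    (sub G H M hM).Adj (eqv M hM hd q) (eqv M hM hd q') ↔ q.1 = q'.1 ∧ G.Adj q.2 q'.2 := by
  obtain ⟨⟨g, hg⟩, x⟩ := q
  obtain ⟨⟨g', hg'⟩, y⟩ := q'
  constructor
  · rintro ⟨h, hh, x', y', hxy, h1, h2⟩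
    obtain ⟨e1, e2⟩ := pair_inj hM hd hh hg (show h x' = g x from h1)
    obtain ⟨e3, e4⟩ := pair_inj hM hd hh hg' (show h y' = g' y from h2)
    subst e1
    subst e2
    subst e3
    subst e4
    exact ⟨rfl, hxy⟩
  · rintro ⟨h1, h2⟩
    have h3 : g = g' := congrArg Subtype.val h1
    subst h3
    exact ⟨g, hg, x, y, h2, rfl, rfl⟩

end PackX

open PackX

theorem taskPack : TaskPack := by
  intro V _ _ G n k H p hn hp0 hp1 hE M hM hd
  classical
  have h0 := hE (sub G H M hM)
  -- vertices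
  have hv : (sub G H M hM).verts.ncard = M.card * Fintype.card V := by
    rw [← Nat.card_coe_set_eq, ← Nat.card_congr (eqv M hM hd), Nat.card_prod,
      Nat.card_eq_fintype_card, Nat.card_eq_fintype_card, Fintype.card_coe]
  -- edges
  have he : M.card * G.edgeSet.ncard ≤ (sub G H M hM).edgeSet.ncard := by
    have hmem : ∀ q : M × G.edgeSet, Sym2.map q.1.1 q.2.1 ∈ (sub G H M hM).edgeSet := by
      rintro ⟨⟨g, hg⟩, ⟨e, he⟩⟩
      induction e with
      | _ x y =>
        rw [SimpleGraph.mem_edgeSet] at he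
        simp only [Sym2.map_mk]
        rw [SimpleGraph.Subgraph.mem_edgeSet]
        exact ⟨g, hg, x, y, he, rfl, rfl⟩
    have hinj : Function.Injective (fun q : M × G.edgeSet =>
        (⟨Sym2.map q.1.1 q.2.1, hmem q⟩ : (sub G H M hM).edgeSet)) := by
      rintro ⟨⟨g, hg⟩, ⟨e, he⟩⟩ ⟨⟨g', hg'⟩, ⟨e', he'⟩⟩ h
      have h1 : Sym2.map g e = Sym2.map g' e' := congrArg Subtype.val h
      have h2 : g = g' := by
        induction e with
        | _ x y =>
          induction e' with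
          | _ x' y' =>
            simp only [Sym2.map_mk] at h1
            rw [Sym2.eq_iff] at h1
            rcases h1 with ⟨h1, _⟩ | ⟨h1, _⟩
            · exact (pair_inj hM hd hg hg' h1).1
            · exact (pair_inj hM hd hg hg' h1).1
      subst h2
      have h3 := Sym2.map.injective (hM g hg).1 h1
      subst h3
      rfl
    have h1 := Nat.card_le_card_of_injective _ hinj
    rw [Nat.card_prod, Nat.card_eq_fintype_card, Fintype.card_coe, Nat.card_coe_set_eq,
      Nat.card_coe_set_eq] at h1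
    exact h1
  -- automorphisms
  have ha : (M.card).factorial ≤ Nat.card {σ : Equiv.Perm (sub G H M hM).verts //
      ∀ x y : (sub G H M hM).verts, (sub G H M hM).Adj x y ↔ (sub G H M hM).Adj (σ x) (σ y)} := by
    have hmem : ∀ π : Equiv.Perm M, ∀ x y : (sub G H M hM).verts,
        (sub G H M hM).Adj x y ↔
        (sub G H M hM).Adj ((eqv M hM hd).permCongr (Equiv.prodCongr π (Equiv.refl V)) x)
          ((eqv M hM hd).permCongr (Equiv.prodCongr π (Equiv.refl V)) y) := by
      intro π x y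
      obtain ⟨q, rfl⟩ := (eqv M hM hd).surjective x
      obtain ⟨q', rfl⟩ := (eqv M hM hd).surjective y
      rw [Equiv.permCongr_apply, Equiv.permCongr_apply, Equiv.symm_apply_apply,
        Equiv.symm_apply_apply, adj_iff, adj_iff]
      simp only [Equiv.prodCongr_apply, Prod.map, Equiv.refl_apply, EmbeddingLike.apply_eq_iff_eq,
        Equiv.coe_refl, id]
    have hinj : Function.Injective (fun π : Equiv.Perm M =>
        (⟨(eqv M hM hd).permCongr (Equiv.prodCongr π (Equiv.refl V)), hmem π⟩ :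
          {σ : Equiv.Perm (sub G H M hM).verts //
      ∀ x y : (sub G H M hM).verts, (sub G H M hM).Adj x y ↔ (sub G H M hM).Adj (σ x) (σ y)})) := by
      intro π π' h
      have h1 := congrArg Subtype.val h
      simp only at h1
      have h2 := (eqv M hM hd).permCongr.injective h1
      ext g
      obtain ⟨x⟩ := ‹Nonempty V›
      have h3 := congrArg (fun σ : Equiv.Perm (M × V) => (σ (g, x)).1) h2
      simp only [Equiv.prodCongr_apply, Prod.map] at h3
      rw [h3]
    have h1 := Nat.card_le_card_of_injective _ hinj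
    rw [Nat.card_perm, Nat.card_eq_fintype_card, Fintype.card_coe] at h1
    exact h1
  set K := Nat.card {σ : Equiv.Perm (sub G H M hM).verts //
      ∀ x y : (sub G H M hM).verts, (sub G H M hM).Adj x y ↔ (sub G H M hM).Adj (σ x) (σ y)} with hK
  have hKpos : (0:ℝ) < K := by
    have : 0 < K := lt_of_lt_of_le (Nat.factorial_pos _) ha
    exact_mod_cast this
  have h1 : (K : ℝ) ≤ (n.descFactorial (sub G H M hM).verts.ncard : ℝ) *
      p ^ (sub G H M hM).edgeSet.ncard := by
    have h2 := mul_le_mul_of_nonneg_left h0 hKpos.le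
    rw [mul_one] at h2
    refine h2.trans (le_of_eq ?_)
    field_simp
  have h2 : (n.descFactorial (sub G H M hM).verts.ncard : ℝ) ≤ (n:ℝ) ^ (M.card * Fintype.card V) := by
    rw [hv]
    exact_mod_cast Nat.descFactorial_le_pow _ _
  have h3 : p ^ (sub G H M hM).edgeSet.ncard ≤ p ^ (M.card * G.edgeSet.ncard) :=
    pow_le_pow_of_le_one hp0 hp1 he
  have h4 : ((M.card).factorial : ℝ) ≤ K := by exact_mod_cast ha
  calc ((M.card).factorial : ℝ) ≤ K := h4
    _ ≤ _ := h1
    _ ≤ (n:ℝ) ^ (M.card * Fintype.card V) * p ^ (M.card * G.edgeSet.ncard) :=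
        mul_le_mul h2 h3 (by positivity) (by positivity)
    _ = _ := by rw [mul_pow, ← pow_mul, ← pow_mul, mul_comm (Fintype.card V), mul_comm G.edgeSet.ncard]

end Pool.Agent.H942R3.KK
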