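import Pool.Agent.H942R3.KK.Stmts2

/-! KK project, TaskStar (helper220). -/

set_option autoImplicit false

namespace Pool.Agent.H942R3.KK

open Finset

namespace StarX

variable {k : ℕ}

/-- the star at `x` -/
def star (H : SimpleGraph (Fin k)) (x : Fin k) : H.Subgraph where
  verts := insert x (H.neighborSet x)
  Adj a b := (a = x ∧ H.Adj x b) ∨ (b = x ∧ H.Adj x a)
  adj_sub := by
    rintro a b (⟨rfl, h⟩ | ⟨rfl, h⟩)
    · exact h
    · exact h.symm
  edge_vert := by
    rintro a b (⟨rfl, h⟩ | ⟨rfl, h⟩)
    · exact Set.mem_insert _ _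
    · exact Set.mem_insert_of_mem _ h
  symm := ⟨fun a b h => h.symm⟩

/-- vertices of the star -/
def toV (H : SimpleGraph (Fin k)) (x : Fin k) : Option (H.neighborSet x) → (star H x).verts
  | none => ⟨x, Set.mem_insert _ _⟩
  | some b => ⟨b.1, Set.mem_insert_of_mem _ b.2⟩

theorem toV_bij (H : SimpleGraph (Fin k)) (x : Fin k) : Function.Bijective (toV H x) := by
  constructor
  · rintro (_ | ⟨a, ha⟩) (_ | ⟨b, hb⟩) h
    · rfl
    · have h1 : x = b := congrArg Subtype.val h
      subst h1
      exact absurd hb (H.loopless.irrefl x)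
    · have h1 : a = x := congrArg Subtype.val h
      subst h1
      exact absurd ha (H.loopless.irrefl a)
    · have h1 : a = b := congrArg Subtype.val h
      subst h1
      rfl
  · rintro ⟨a, rfl | ha⟩
    · exact ⟨none, rfl⟩
    · exact ⟨some ⟨a, ha⟩, rfl⟩

/-- vertices of the star -/
noncomputable def eqv (H : SimpleGraph (Fin k)) (x : Fin k) :
    Option (H.neighborSet x) ≃ (star H x).verts := Equiv.ofBijective _ (toV_bij H x)

theorem adj_iff (H : SimpleGraph (Fin k)) (x : Fin k) (a b : Option (H.neighborSet x)) :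
    (star H x).Adj (eqv H x a) (eqv H x b) ↔ (a = none ∧ b ≠ none) ∨ (b = none ∧ a ≠ none) := by
  have hx := H.loopless.irrefl x
  rcases a with _ | ⟨a, ha⟩ <;> rcases b with _ | ⟨b, hb⟩
  · simp only [ne_eq, not_true_eq_false, and_false, or_false, iff_false]
    rintro (⟨_, h⟩ | ⟨_, h⟩) <;> exact hx h
  · simp only [ne_eq, reduceCtorEq, not_false_eq_true, and_self, true_or, iff_true]
    exact Or.inl ⟨rfl, hb⟩
  · simp only [ne_eq, reduceCtorEq, not_false_eq_true, and_self, or_true, iff_true]
    exact Or.inr ⟨rfl, ha⟩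
  · simp only [ne_eq, reduceCtorEq, false_and, or_false, iff_false]
    rintro (⟨h1, _⟩ | ⟨h1, _⟩)
    · have h2 : a = x := h1
      subst h2
      exact hx ha
    · have h2 : b = x := h1
      subst h2
      exact hx hb

theorem verts_card (H : SimpleGraph (Fin k)) (x : Fin k) :
    (star H x).verts.ncard = (H.neighborSet x).ncard + 1 := by
  show (insert x (H.neighborSet x)).ncard = _
  exact Set.ncard_insert_of_notMem (fun h => H.loopless.irrefl x h)

theorem edges_card (H : SimpleGraph (Fin k)) (x : Fin k) :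
    (star H x).edgeSet.ncard = (H.neighborSet x).ncard := by
  have h1 : (star H x).edgeSet = (fun b => s(x, b)) '' (H.neighborSet x) := by
    ext e
    induction e with
    | _ a b =>
      rw [SimpleGraph.Subgraph.mem_edgeSet]
      constructor
      · rintro (⟨rfl, h⟩ | ⟨rfl, h⟩)
        · exact ⟨b, h, rfl⟩
        · exact ⟨a, h, Sym2.eq_swap⟩
      · rintro ⟨c, hc, h⟩
        rw [Sym2.eq_iff] at h
        rcases h with ⟨rfl, rfl⟩ | ⟨rfl, rfl⟩
        · exact Or.inl ⟨rfl, hc⟩
        · exact Or.inr ⟨rfl, hc⟩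
  rw [h1]
  apply Set.ncard_image_of_injective
  intro a b h
  simp only [Sym2.eq_iff] at h
  rcases h with ⟨_, h⟩ | ⟨h2, h3⟩
  · exact h
  · rw [h3, h2]

end StarX

open StarX

theorem taskStar : TaskStar := by
  intro n k H p hn hp0 hE x
  classical
  have h0 := hE (star H x)
  set d := (H.neighborSet x).ncard with hd
  have ha : d.factorial ≤ Nat.card {σ : Equiv.Perm (star H x).verts //
      ∀ a b : (star H x).verts, (star H x).Adj a b ↔ (star H x).Adj (σ a) (σ b)} := by
    have hmem : ∀ π : Equiv.Perm (H.neighborSet x), ∀ a b : (star H x).verts,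
        (star H x).Adj a b ↔
        (star H x).Adj ((eqv H x).permCongr (Equiv.optionCongr π) a)
          ((eqv H x).permCongr (Equiv.optionCongr π) b) := by
      intro π a b
      obtain ⟨q, rfl⟩ := (eqv H x).surjective a
      obtain ⟨q', rfl⟩ := (eqv H x).surjective b
      rw [Equiv.permCongr_apply, Equiv.permCongr_apply, Equiv.symm_apply_apply,
        Equiv.symm_apply_apply, adj_iff, adj_iff]
      rcases q with _ | q <;> rcases q' with _ | q' <;> simp
    have hinj : Function.Injective (fun π : Equiv.Perm (H.neighborSet x) =>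
        (⟨(eqv H x).permCongr (Equiv.optionCongr π), hmem π⟩ :
          {σ : Equiv.Perm (star H x).verts //
      ∀ a b : (star H x).verts, (star H x).Adj a b ↔ (star H x).Adj (σ a) (σ b)})) := by
      intro π π' h
      have h1 := congrArg Subtype.val h
      simp only at h1
      have h2 := (eqv H x).permCongr.injective h1
      exact Equiv.optionCongr_injective h2
    have h1 := Nat.card_le_card_of_injective _ hinj
    rw [Nat.card_perm, Nat.card_coe_set_eq] at h1
    exact h1
  set K := Nat.card {σ : Equiv.Perm (star H x).verts //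
      ∀ a b : (star H x).verts, (star H x).Adj a b ↔ (star H x).Adj (σ a) (σ b)} with hK
  have hKpos : (0:ℝ) < K := by
    have : 0 < K := lt_of_lt_of_le (Nat.factorial_pos _) ha
    exact_mod_cast this
  rw [verts_card, edges_card, ← hd] at h0
  have h1 : (K : ℝ) ≤ (n.descFactorial (d + 1) : ℝ) * p ^ d := by
    have h2 := mul_le_mul_of_nonneg_left h0 hKpos.le
    rw [mul_one] at h2
    refine h2.trans (le_of_eq ?_)
    field_simp
  have h2 : (n.descFactorial (d + 1) : ℝ) ≤ (n:ℝ) ^ (d + 1) := by
    exact_mod_cast Nat.descFactorial_le_pow _ _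
  have h4 : (d.factorial : ℝ) ≤ K := by exact_mod_cast ha
  calc (d.factorial : ℝ) ≤ K := h4
    _ ≤ _ := h1
    _ ≤ (n:ℝ) ^ (d + 1) * p ^ d := mul_le_mul_of_nonneg_right h2 (by positivity)
    _ = _ := by rw [mul_pow, pow_succ]; ring

end Pool.Agent.H942R3.KK
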